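import Mathlib

/-! # HY24/Ch (MP_82a190_co, helper24): choice of the field, the functional and three labels (Mathlib only)

`F = GaloisField 2 k`: `Fintype`/`Nat.card = 2^k` (`GaloisField.card`), `CharP 2` gives `x + x = 0` (`CharTwo.add_self_eq_zero`).
`lam` is the coordinate functional of a `ZMod 2`-basis `b` with respect to `b 0`; `l1 = b 0`, `l0 = b 1`, `l = l0 + l1`.
-/

namespace Pool.Agent.HY24

open Finset

theorem choice (k : ℕ) (hk : 4 ≤ k) :
    ∃ (F : Type) (_ : Field F) (_ : Fintype F) (_ : DecidableEq F) (lam : F →+ ZMod 2) (l l0 l1 : F),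
      Fintype.card F = 2 ^ k ∧ (∀ x : F, x + x = 0) ∧ l ≠ 0 ∧ l0 ≠ 0 ∧ l1 ≠ 0 ∧ l0 ≠ l ∧ l1 ≠ l ∧ l1 ≠ l0 ∧
      lam l0 = 0 ∧ lam l1 = 1 := by
  classical
  have : Fact (Nat.Prime 2) := ⟨Nat.prime_two⟩
  have hk0 : k ≠ 0 := by omega
  have : Finite (GaloisField 2 k) := by
    apply Nat.finite_of_card_ne_zero
    rw [GaloisField.card 2 k hk0]
    positivity
  letI instF : Fintype (GaloisField 2 k) := Fintype.ofFinite _
  have hfr : Module.finrank (ZMod 2) (GaloisField 2 k) = k := GaloisField.finrank 2 hk0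
  let b : Module.Basis (Fin k) (ZMod 2) (GaloisField 2 k) := Module.finBasisOfFinrankEq _ _ hfr
  let i0 : Fin k := ⟨0, by omega⟩
  let i1 : Fin k := ⟨1, by omega⟩
  have hi : i1 ≠ i0 := by
    intro h
    have := congrArg Fin.val h
    simp [i0, i1] at this
  have e1 : b.coord i0 (b i0) = 1 := by
    rw [Module.Basis.coord_apply, Module.Basis.repr_self, Finsupp.single_eq_same]
  have e0 : b.coord i0 (b i1) = 0 := by
    rw [Module.Basis.coord_apply, Module.Basis.repr_self, Finsupp.single_eq_of_ne hi.symm]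
  have n0 : b i1 ≠ 0 := b.ne_zero i1
  have n1 : b i0 ≠ 0 := b.ne_zero i0
  refine ⟨GaloisField 2 k, inferInstance, instF, Classical.decEq _,
    (b.coord i0).toAddMonoidHom, b i1 + b i0, b i1, b i0, ?_, ?_, ?_, n0, n1, ?_, ?_, ?_, e0, e1⟩
  · rw [← Nat.card_eq_fintype_card, GaloisField.card 2 k hk0]
  · intro x
    exact CharTwo.add_self_eq_zero x
  · intro h
    have := congrArg (b.coord i0) h
    rw [map_add, e0, e1, map_zero] at this
    simp at this
  · intro h
    exact n1 (left_eq_add.mp h)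
  · intro h
    exact n0 (right_eq_add.mp h)
  · intro h
    exact hi (b.injective h).symm

end Pool.Agent.HY24
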