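import Mathlib

/-! # HY24/Des (MP_82a190_co, helper24): the multiplicative partial Steiner system and its codegrees (Mathlib only)

`V = Fˣ × ZMod N`, label `(v.1 : F)`, `St` = the `(k+1)`-sets with product of labels `1` and sum of second parts `0`.

`St_unique`: if `|e| = k`, `e ⊆ A`, then `A = insert y e` with `y.1 = (∏_e)⁻¹`, `y.2 = -∑_e`; the same for `A'`.

`bad_card`. Let `|S| = k - 1`, `t = (∏_{v ∈ S} v.1)⁻¹`, `s = -∑_{v ∈ S} v.2`, `σ = ∑_{v ∈ S} (v.1 : F)`. For `x ∉ S` put
`y = (t / x.1, s - x.2)`. If `y ∉ S`, `y ≠ x`, then `A = insert y (insert x S)` is in `St k` and contains `insert x S`. It has no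
zero-sum face iff `σ + x.1 ≠ 0` (face without `y`), `σ + y.1 ≠ 0` (face without `x`) and `σ - s'.1 + x.1 + y.1 ≠ 0` for all `s' ∈ S`.
So every bad `x` is in one of
 (1) `S` (`k-1` elements); (2) the preimage of `S` under the injective map `x ↦ y` (at most `k-1`); (3) `{x : y = x}`, i.e.
 `x.1² = t` and `x.2 + x.2 = s`: at most one `x` (`Fˣ` and `ZMod N` have no elements of order two: char 2, resp. `N` odd);
 (4) `{x : x.1 = -σ}` (at most `N`); (5) `{x : t / x.1 = -σ}` (at most `N`); (6) for `s' ∈ S`: `{x : x.1 + t/x.1 = s'.1 - σ}`, i.e.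
 `x.1² - (s'.1 - σ) x.1 + t = 0`: at most two values of `x.1` (roots of a monic quadratic polynomial, `Polynomial.card_roots'`, or
 directly: if `p ≠ q` are roots then `p + q = u`, so every root is `p` or `u - p`), at most `2N` elements.
 Total at most `(2k-1) + 2N + 2N(k-1) = 2kN + 2k - 1`.
-/

namespace Pool.Agent.HY24

open Finset

variable {F : Type*} [Field F] [Fintype F] [DecidableEq F] {N : ℕ} [NeZero N]

/-- the partial Steiner system -/
def St (F : Type*) [Field F] [Fintype F] [DecidableEq F] (N : ℕ) [NeZero N] (k : ℕ) : Finset (Finset (Fˣ × ZMod N)) :=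
  univ.filter (fun A => A.card = k + 1 ∧ ∏ v ∈ A, v.1 = 1 ∧ ∑ v ∈ A, v.2 = 0)

theorem St_unique (k : ℕ) (e : Finset (Fˣ × ZMod N)) (he : e.card = k) (A : Finset (Fˣ × ZMod N)) (hA : A ∈ St F N k)
    (A' : Finset (Fˣ × ZMod N)) (hA' : A' ∈ St F N k) (h : e ⊆ A) (h' : e ⊆ A') : A = A' := by
  have key : ∀ B : Finset (Fˣ × ZMod N), B ∈ St F N k → e ⊆ B →
      B = insert ((∏ v ∈ e, v.1)⁻¹, - ∑ v ∈ e, v.2) e := by
    intro B hB heB
    simp only [St, mem_filter, mem_univ, true_and] at hB
    obtain ⟨hc, hp, hs⟩ := hB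
    have h1 : (B \ e).card = 1 := by
      rw [Finset.card_sdiff_of_subset heB, hc, he]; omega
    obtain ⟨y, hy⟩ := Finset.card_eq_one.1 h1
    have hye : y ∉ e := by
      have : y ∈ B \ e := by rw [hy]; simp
      exact (Finset.mem_sdiff.1 this).2
    have hBe : B = insert y e := by
      rw [Finset.insert_eq, ← hy]
      exact (Finset.sdiff_union_of_subset heB).symm
    rw [hBe, Finset.prod_insert hye] at hp
    rw [hBe, Finset.sum_insert hye] at hs
    have e1 : y.1 = (∏ v ∈ e, v.1)⁻¹ := eq_inv_of_mul_eq_one_left hp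
    have e2 : y.2 = - ∑ v ∈ e, v.2 := eq_neg_of_add_eq_zero_left hs
    have e3 : y = ((∏ v ∈ e, v.1)⁻¹, - ∑ v ∈ e, v.2) := Prod.ext e1 e2
    rw [hBe, ← e3]
  rw [key A hA h, key A' hA' h']

/-- `p + t/p = u` has at most two solutions -/
theorem quad_card (t : Fˣ) (u : F) : (univ.filter (fun p : Fˣ => (p : F) + ((t / p : Fˣ) : F) = u)).card ≤ 2 := by
  rcases (univ.filter (fun p : Fˣ => (p : F) + ((t / p : Fˣ) : F) = u)).eq_empty_or_nonempty with h | ⟨p, hp⟩
  · rw [h]; simp
  · have hsub : univ.filter (fun p : Fˣ => (p : F) + ((t / p : Fˣ) : F) = u) ⊆ {p, t / p} := by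
      intro q hq
      simp only [mem_filter, mem_univ, true_and] at hp hq
      simp only [mem_insert, mem_singleton]
      by_cases hqp : q = p
      · exact Or.inl hqp
      · right
        rw [← hp] at hq
        rw [Units.val_div_eq_div_val, Units.val_div_eq_div_val] at hq
        have hp0 : (p : F) ≠ 0 := p.ne_zero
        have hq0 : (q : F) ≠ 0 := q.ne_zero
        have hne : (q : F) - p ≠ 0 := by
          intro h0
          exact hqp (Units.ext (sub_eq_zero.1 h0))
        field_simp at hq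
        have h3 : ((q : F) - p) * ((q : F) * p - t) = 0 := by linear_combination hq
        rcases mul_eq_zero.1 h3 with h4 | h4
        · exact absurd h4 hne
        · apply Units.ext
          rw [Units.val_div_eq_div_val]
          rw [eq_div_iff hp0]
          exact sub_eq_zero.1 h4
    refine (Finset.card_le_card hsub).trans ?_
    exact Finset.card_le_two

theorem bad_card (h2 : ∀ x : F, x + x = 0) (hN : Odd N) (k : ℕ) (hk : 1 ≤ k) (S : Finset (Fˣ × ZMod N))
    (hS : S.card = k - 1) :
    (univ.filter (fun x : Fˣ × ZMod N => ¬ (x ∉ S ∧ ∃ A ∈ St F N k, (∀ a ∈ A, ∑ v ∈ A.erase a, (v.1 : F) ≠ 0) ∧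
      insert x S ⊆ A))).card ≤ 2 * k * N + 2 * k := by
  set t : Fˣ := (∏ v ∈ S, v.1)⁻¹ with ht
  set s : ZMod N := - ∑ v ∈ S, v.2 with hs
  set σ : F := ∑ v ∈ S, (v.1 : F) with hσ
  let y : Fˣ × ZMod N → Fˣ × ZMod N := fun x => (t / x.1, s - x.2)
  have hyinj : Function.Injective y := by
    intro a b hab
    have h1 : t / a.1 = t / b.1 := congrArg Prod.fst hab
    have h3 : s - a.2 = s - b.2 := congrArg Prod.snd hab
    exact Prod.ext (div_right_injective h1) (sub_right_injective h3)
  let B2 : Finset (Fˣ × ZMod N) := univ.filter (fun x => y x ∈ S)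
  let B3 : Finset (Fˣ × ZMod N) := univ.filter (fun x => y x = x)
  let B4 : Finset (Fˣ × ZMod N) := univ.filter (fun x => (x.1 : F) = -σ)
  let B5 : Finset (Fˣ × ZMod N) := univ.filter (fun x => ((t / x.1 : Fˣ) : F) = -σ)
  let B6 : Fˣ × ZMod N → Finset (Fˣ × ZMod N) := fun a =>
    (univ.filter (fun p : Fˣ => (p : F) + ((t / p : Fˣ) : F) = (a.1 : F) - σ)) ×ˢ univ
  have hsub : (univ.filter (fun x : Fˣ × ZMod N => ¬ (x ∉ S ∧ ∃ A ∈ St F N k,
      (∀ a ∈ A, ∑ v ∈ A.erase a, (v.1 : F) ≠ 0) ∧ insert x S ⊆ A))) ⊆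
      ((((S ∪ B2) ∪ B3) ∪ B4) ∪ B5) ∪ S.biUnion B6 := by
    intro x hx
    simp only [mem_filter, mem_univ, true_and] at hx
    by_contra hcon
    simp only [mem_union, mem_biUnion, not_or, not_exists, not_and] at hcon
    obtain ⟨⟨⟨⟨⟨hxS, hx2⟩, hx3⟩, hx4⟩, hx5⟩, hx6⟩ := hcon
    apply hx
    have hyS : y x ∉ S := fun h => hx2 (by simp only [B2, mem_filter, mem_univ, true_and]; exact h)
    have hyx : y x ≠ x := fun h => hx3 (by simp only [B3, mem_filter, mem_univ, true_and]; exact h)
    have h4 : (x.1 : F) ≠ -σ := fun h => hx4 (by simp only [B4, mem_filter, mem_univ, true_and]; exact h)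
    have h5 : ((t / x.1 : Fˣ) : F) ≠ -σ := fun h => hx5 (by simp only [B5, mem_filter, mem_univ, true_and]; exact h)
    have h6 : ∀ a ∈ S, (x.1 : F) + ((t / x.1 : Fˣ) : F) ≠ (a.1 : F) - σ := by
      intro a ha h
      apply hx6 a ha
      simp only [B6, mem_product, mem_filter, mem_univ, true_and, and_true]
      exact h
    have hyins : y x ∉ insert x S := by
      rw [mem_insert, not_or]; exact ⟨hyx, hyS⟩
    have hsum : ∑ v ∈ insert (y x) (insert x S), (v.1 : F) = ((t / x.1 : Fˣ) : F) + ((x.1 : F) + σ) := by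
      rw [Finset.sum_insert hyins, Finset.sum_insert hxS]
    refine ⟨hxS, insert (y x) (insert x S), ?_, ?_, Finset.subset_insert _ _⟩
    · simp only [St, mem_filter, mem_univ, true_and]
      refine ⟨?_, ?_, ?_⟩
      · rw [Finset.card_insert_of_notMem hyins, Finset.card_insert_of_notMem hxS, hS]; omega
      · rw [Finset.prod_insert hyins, Finset.prod_insert hxS]
        show t / x.1 * (x.1 * ∏ v ∈ S, v.1) = 1
        rw [← mul_assoc, div_mul_cancel, ht, inv_mul_cancel]
      · rw [Finset.sum_insert hyins, Finset.sum_insert hxS]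
        show s - x.2 + (x.2 + ∑ v ∈ S, v.2) = 0
        rw [hs]; ring
    · intro a ha
      have hsa : ∑ v ∈ (insert (y x) (insert x S)).erase a, (v.1 : F) =
          ((t / x.1 : Fˣ) : F) + ((x.1 : F) + σ) - a.1 := by
        rw [← hsum, ← Finset.add_sum_erase _ (fun v : Fˣ × ZMod N => (v.1 : F)) ha]
        ring
      rw [hsa]
      rw [mem_insert, mem_insert] at ha
      rcases ha with ha | ha | ha
      · subst ha
        show ((t / x.1 : Fˣ) : F) + ((x.1 : F) + σ) - ((t / x.1 : Fˣ) : F) ≠ 0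
        intro h
        apply h4
        linear_combination h
      · subst ha
        intro h
        apply h5
        linear_combination h
      · intro h
        apply h6 a ha
        linear_combination h
  have c2 : B2.card ≤ k - 1 := by
    rw [← hS]
    refine Finset.card_le_card_of_injOn y ?_ (hyinj.injOn)
    intro a ha
    have ha' : a ∈ B2 := ha
    simp only [B2, mem_filter, mem_univ, true_and] at ha'
    exact ha'
  have c3 : B3.card ≤ 1 := by
    rw [Finset.card_le_one]
    intro a ha b hb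
    simp only [B3, mem_filter, mem_univ, true_and] at ha hb
    have a1 : t / a.1 = a.1 := congrArg Prod.fst ha
    have a2 : s - a.2 = a.2 := congrArg Prod.snd ha
    have b1 : t / b.1 = b.1 := congrArg Prod.fst hb
    have b2 : s - b.2 = b.2 := congrArg Prod.snd hb
    have a3 : t = a.1 * a.1 := by rw [div_eq_iff_eq_mul] at a1; exact a1
    have b3 : t = b.1 * b.1 := by rw [div_eq_iff_eq_mul] at b1; exact b1
    have c3 : (a.1 : F) * a.1 = (b.1 : F) * b.1 := by
      have h : a.1 * a.1 = b.1 * b.1 := by rw [← a3, ← b3]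
      have := congrArg (fun u : Fˣ => (u : F)) h
      simpa using this
    have d1 : ((a.1 : F) - b.1) * ((a.1 : F) - b.1) = 0 := by
      have h := h2 ((a.1 : F) * b.1)
      have h' := h2 ((b.1 : F) * b.1)
      linear_combination c3 - h + h'
    have d2 : (a.1 : F) = b.1 := sub_eq_zero.1 (mul_self_eq_zero.1 d1)
    have e1 : a.1 = b.1 := Units.ext d2
    have f1 : (2 : ZMod N) * (a.2 - b.2) = 0 := by linear_combination b2 - a2
    have hu : IsUnit ((2 : ℕ) : ZMod N) := by
      rw [ZMod.isUnit_iff_coprime]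
      exact (Nat.coprime_two_left).2 hN
    have hu' : IsUnit (2 : ZMod N) := by exact_mod_cast hu
    have f2 : a.2 - b.2 = 0 := by
      rcases hu' with ⟨u, hu⟩
      rw [← hu] at f1
      exact (Units.mul_right_eq_zero u).1 f1
    exact Prod.ext e1 (sub_eq_zero.1 f2)
  have c4 : B4.card ≤ N := by
    have h : B4.card ≤ (univ : Finset (ZMod N)).card := by
      refine Finset.card_le_card_of_injOn (fun x => x.2) (fun _ _ => by simp) ?_
      intro a ha b hb hab
      have ha' : a ∈ B4 := ha
      have hb' : b ∈ B4 := hb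
      simp only [B4, mem_filter, mem_univ, true_and] at ha' hb'
      exact Prod.ext (Units.ext (ha'.trans hb'.symm)) hab
    rwa [Finset.card_univ, ZMod.card] at h
  have c5 : B5.card ≤ N := by
    have h : B5.card ≤ (univ : Finset (ZMod N)).card := by
      refine Finset.card_le_card_of_injOn (fun x => x.2) (fun _ _ => by simp) ?_
      intro a ha b hb hab
      have ha' : a ∈ B5 := ha
      have hb' : b ∈ B5 := hb
      simp only [B5, mem_filter, mem_univ, true_and] at ha' hb'
      have h1 : t / a.1 = t / b.1 := Units.ext (ha'.trans hb'.symm)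
      exact Prod.ext (div_right_injective h1) hab
    rwa [Finset.card_univ, ZMod.card] at h
  have c6 : (S.biUnion B6).card ≤ (k - 1) * (2 * N) := by
    refine Finset.card_biUnion_le.trans ?_
    rw [← hS, ← smul_eq_mul]
    refine Finset.sum_le_card_nsmul _ _ _ ?_
    intro a _
    simp only [B6]
    rw [Finset.card_product, Finset.card_univ, ZMod.card]
    exact Nat.mul_le_mul_right _ (quad_card t _)
  refine (Finset.card_le_card hsub).trans ?_
  have u1 := Finset.card_union_le ((((S ∪ B2) ∪ B3) ∪ B4) ∪ B5) (S.biUnion B6)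
  have u2 := Finset.card_union_le (((S ∪ B2) ∪ B3) ∪ B4) B5
  have u3 := Finset.card_union_le ((S ∪ B2) ∪ B3) B4
  have u4 := Finset.card_union_le (S ∪ B2) B3
  have u5 := Finset.card_union_le S B2
  obtain ⟨j, rfl⟩ : ∃ j, k = j + 1 := ⟨k - 1, by omega⟩
  simp only [Nat.add_sub_cancel] at c2 c6 hS
  have e : 2 * (j + 1) * N + 2 * (j + 1) = j * (2 * N) + 2 * N + 2 * j + 2 := by ring
  rw [e]
  omega

end Pool.Agent.HY24
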