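import Pool.Agent.HY24.Fam
import Pool.Agent.HY24.Des

/-! # HY24/Cod (MP_82a190_co, helper24): the codegrees of `G0 ∪ XX`

`Fa k X` = the members of `St` without a zero-sum face and without a member of `X`.

Proof of `codeg`. Let `|S| = k - 1`. Say that `x` is good if `x ∉ S` and some `A ∈ St`, without zero-sum faces, contains
`insert x S`. All but `2kN + 2k` of the `x` are good (`bad_card`). Say that a good `x` is removed if its `A` (unique by `St_unique`)
contains a member of `X`. For `f ∈ X` (`|f| = k`) at most one `A ∈ St` contains `f` (`St_unique`), and if `S ⊆ A`, then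
`#(A \ S) = 2`, so at most `2` elements `x` are removed because of `f`. So at most `2 |X|` elements are removed: the removed `x` lie in
`X.biUnion (fun f => univ.filter (fun x => x ∉ S ∧ ∃ A ∈ St F N k, f ⊆ A ∧ insert x S ⊆ A))` and each of these sets has at most
two elements (`card_biUnion_le`, `sum_le_card_nsmul`). For a good, not removed `x`, `insert x S ∈ G0 k (Fa k X)`; `x ↦ insert x S` is
injective on the complement of `S` (`Finset.card_le_card_of_injOn`). `|V| = (|F| - 1) N` is not needed.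
-/

namespace Pool.Agent.HY24

open Finset

variable {F : Type*} [Field F] [Fintype F] [DecidableEq F] {N : ℕ} [NeZero N]

/-- the family of cliques -/
def Fa (k : ℕ) (X : Finset (Finset (Fˣ × ZMod N))) : Finset (Finset (Fˣ × ZMod N)) :=
  (St F N k).filter (fun A => (∀ a ∈ A, ∑ v ∈ A.erase a, (v.1 : F) ≠ 0) ∧ ∀ f ∈ X, ¬ f ⊆ A)

theorem codeg (h2 : ∀ x : F, x + x = 0) (hN : Odd N) (k : ℕ) (hk : 1 ≤ k) (X : Finset (Finset (Fˣ × ZMod N)))
    (hX : ∀ f ∈ X, f.card = k) (S : Finset (Fˣ × ZMod N)) (hS : S.card = k - 1) :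
    Fintype.card (Fˣ × ZMod N) ≤
      ((G0 k (Fa k X)).filter (fun e => S ⊆ e)).card + (2 * k * N + 2 * k + 2 * X.card) := by
  have hbad := bad_card h2 hN k hk S hS
  set Bad : Finset (Fˣ × ZMod N) := univ.filter (fun x : Fˣ × ZMod N => ¬ (x ∉ S ∧ ∃ A ∈ St F N k,
    (∀ a ∈ A, ∑ v ∈ A.erase a, (v.1 : F) ≠ 0) ∧ insert x S ⊆ A)) with hBad
  let Rf : Finset (Fˣ × ZMod N) → Finset (Fˣ × ZMod N) := fun f =>
    univ.filter (fun x => x ∉ S ∧ ∃ A ∈ St F N k, f ⊆ A ∧ insert x S ⊆ A)
  have hRf : ∀ f ∈ X, (Rf f).card ≤ 2 := by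
    intro f hf
    rcases (Rf f).eq_empty_or_nonempty with h | ⟨x, hx⟩
    · rw [h]; simp
    · simp only [Rf, mem_filter, mem_univ, true_and] at hx
      obtain ⟨-, A, hA, hfA, hxA⟩ := hx
      have hSA : S ⊆ A := (Finset.subset_insert _ _).trans hxA
      have hsub : Rf f ⊆ A \ S := by
        intro z hz
        simp only [Rf, mem_filter, mem_univ, true_and] at hz
        obtain ⟨hzS, A', hA', hfA', hzA'⟩ := hz
        have hAA : A' = A := St_unique k f (hX f hf) A' hA' A hA hfA' hfA
        rw [hAA] at hzA'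
        exact Finset.mem_sdiff.2 ⟨hzA' (Finset.mem_insert_self _ _), hzS⟩
      refine (Finset.card_le_card hsub).trans ?_
      have hAc : A.card = k + 1 := by
        simp only [St, mem_filter, mem_univ, true_and] at hA
        exact hA.1
      rw [Finset.card_sdiff_of_subset hSA, hAc, hS]
      omega
  have hRem : (X.biUnion Rf).card ≤ 2 * X.card := by
    refine Finset.card_biUnion_le.trans ?_
    refine (Finset.sum_le_card_nsmul X _ 2 hRf).trans ?_
    rw [smul_eq_mul, mul_comm]
  have hgood : (univ \ (Bad ∪ X.biUnion Rf)).card ≤ ((G0 k (Fa k X)).filter (fun e => S ⊆ e)).card := by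
    have hmem : ∀ x ∈ (univ \ (Bad ∪ X.biUnion Rf) : Finset (Fˣ × ZMod N)), x ∉ S ∧ ∃ A ∈ Fa k X, insert x S ⊆ A := by
      intro x hx
      rw [Finset.mem_sdiff, Finset.mem_union, not_or] at hx
      obtain ⟨-, hx1, hx2⟩ := hx
      rw [hBad, Finset.mem_filter] at hx1
      have hx3 : x ∉ S ∧ ∃ A ∈ St F N k, (∀ a ∈ A, ∑ v ∈ A.erase a, (v.1 : F) ≠ 0) ∧ insert x S ⊆ A := by
        by_contra hcon
        exact hx1 ⟨mem_univ _, hcon⟩
      obtain ⟨hxS, A, hA, hzs, hxA⟩ := hx3
      refine ⟨hxS, A, ?_, hxA⟩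
      unfold Fa
      rw [Finset.mem_filter]
      refine ⟨hA, hzs, ?_⟩
      intro f hf hfA
      apply hx2
      rw [Finset.mem_biUnion]
      refine ⟨f, hf, ?_⟩
      simp only [Rf, mem_filter, mem_univ, true_and]
      exact ⟨hxS, A, hA, hfA, hxA⟩
    refine Finset.card_le_card_of_injOn (fun x => insert x S) ?_ ?_
    · intro x hx
      obtain ⟨hxS, A, hA, hxA⟩ := hmem x hx
      refine Finset.mem_coe.2 (Finset.mem_filter.2 ⟨?_, Finset.subset_insert _ _⟩)
      unfold G0
      refine Finset.mem_filter.2 ⟨mem_univ _, ?_, A, hA, hxA⟩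
      rw [Finset.card_insert_of_notMem hxS, hS]
      omega
    · intro x hx z hz hxz
      have hxS := (hmem x hx).1
      have hzS := (hmem z hz).1
      have hxz' : insert x S = insert z S := hxz
      have : x ∈ insert z S := by rw [← hxz']; exact Finset.mem_insert_self _ _
      rcases Finset.mem_insert.1 this with h | h
      · exact h
      · exact absurd h hxS
  have htot : Fintype.card (Fˣ × ZMod N) ≤ (univ \ (Bad ∪ X.biUnion Rf)).card + (Bad ∪ X.biUnion Rf).card := by
    rw [← Finset.card_univ, ← Finset.card_sdiff_add_card_inter (univ : Finset (Fˣ × ZMod N)) (Bad ∪ X.biUnion Rf),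
      Finset.univ_inter]
  have hun : (Bad ∪ X.biUnion Rf).card ≤ Bad.card + (X.biUnion Rf).card := Finset.card_union_le _ _
  omega

end Pool.Agent.HY24
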