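import Mathlib

/-! # HY24/Tra (MP_82a190_co, helper24): transport to `Fin n` (Mathlib only)

Proof. `f : V ≃ Fin (Fintype.card V)` (`Fintype.equivFin`). `G' = G.map (mapEmbedding f.toEmbedding)` (or `G.image (·.map f)`).
All the statements are transported along `e ↦ e.map f.toEmbedding` (`Finset.map_subset_map`, `Finset.card_map`) and every
`S : Finset (Fin n)` is `(S.map f.symm).map f`.
-/

namespace Pool.Agent.HY24

open Finset

/-- the property of the frozen statement, over any finite vertex type -/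
def Bad (V : Type) [Fintype V] [DecidableEq V] (k : ℕ) (δ : ℝ) : Prop :=
  ∃ G : Finset (Finset V),
    (∀ e ∈ G, e.card = k) ∧
    (∀ S : Finset V, S.card = k - 1 →
      δ * (Fintype.card V : ℝ) ≤ ((G.filter (fun e => S ⊆ e)).card : ℝ)) ∧
    (∀ S : Finset V, S.card < k →
      (k + 1 - S.card).choose (k - S.card) ∣ (G.filter (fun e => S ⊆ e)).card) ∧
    ¬ ∃ D : Finset (Finset V),
      (∀ A ∈ D, A.card = k + 1 ∧ ∀ e : Finset V, e ⊆ A → e.card = k → e ∈ G) ∧
      ∀ e ∈ G, (D.filter (fun A => e ⊆ A)).card = 1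

theorem filter_map_card {V W : Type} [DecidableEq V] [DecidableEq W]
    (φ : Finset V ≃ Finset W) (hsub : ∀ s t : Finset V, φ s ⊆ φ t ↔ s ⊆ t) (G : Finset (Finset V)) (S : Finset V) :
    ((G.map φ.toEmbedding).filter (fun e => φ S ⊆ e)).card = (G.filter (fun e => S ⊆ e)).card := by
  rw [filter_map, card_map]
  congr 1
  refine filter_congr fun e _ => ?_
  exact hsub S e

theorem transport_equiv (V W : Type) [Fintype V] [DecidableEq V] [Fintype W] [DecidableEq W] (f : V ≃ W)
    (k : ℕ) (δ : ℝ) (h : Bad V k δ) : Bad W k δ := by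
  obtain ⟨G, h1, h2, h3, h4⟩ := h
  obtain ⟨φ, hcard, hsub⟩ : ∃ φ : Finset V ≃ Finset W, (∀ s, (φ s).card = s.card) ∧
      ∀ s t : Finset V, φ s ⊆ φ t ↔ s ⊆ t := by
    refine ⟨f.finsetCongr, fun s => ?_, fun s t => ?_⟩
    · simp [Equiv.finsetCongr_apply]
    · simp [Equiv.finsetCongr_apply]
  have hmem : ∀ e, φ e ∈ G.map φ.toEmbedding ↔ e ∈ G := by
    intro e
    rw [mem_map_equiv, φ.symm_apply_apply]
  refine ⟨G.map φ.toEmbedding, ?_, ?_, ?_, ?_⟩
  · intro e' he'
    obtain ⟨e, rfl⟩ := φ.surjective e'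
    rw [hcard]
    exact h1 e ((hmem e).mp he')
  · intro S' hS'
    obtain ⟨S, rfl⟩ := φ.surjective S'
    rw [hcard] at hS'
    rw [filter_map_card φ hsub, ← Fintype.card_congr f]
    exact h2 S hS'
  · intro S' hS'
    obtain ⟨S, rfl⟩ := φ.surjective S'
    rw [hcard] at hS' ⊢
    rw [filter_map_card φ hsub]
    exact h3 S hS'
  · rintro ⟨D', hD1, hD2⟩
    apply h4
    refine ⟨D'.map φ.symm.toEmbedding, ?_, ?_⟩
    · intro A hA
      rw [mem_map_equiv, Equiv.symm_symm] at hA
      obtain ⟨hA1, hA2⟩ := hD1 _ hA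
      rw [hcard] at hA1
      refine ⟨hA1, fun e he hek => ?_⟩
      rw [← hmem e]
      exact hA2 (φ e) ((hsub e A).mpr he) (by rw [hcard]; exact hek)
    · intro e he
      have h5 := hD2 (φ e) ((hmem e).mpr he)
      rw [← h5]
      have h6 : D' = (D'.map φ.symm.toEmbedding).map φ.toEmbedding := by
        ext A'
        rw [mem_map_equiv, mem_map_equiv, Equiv.symm_symm, φ.apply_symm_apply]
      conv_rhs => rw [h6]
      rw [filter_map_card φ hsub]

theorem transport (V : Type) [Fintype V] [DecidableEq V] (k : ℕ) (δ : ℝ) (h : Bad V k δ) :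
    Bad (Fin (Fintype.card V)) k δ :=
  transport_equiv V (Fin (Fintype.card V)) (Fintype.equivFin V) k δ h

end Pool.Agent.HY24
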