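import Pool.Agent.HY24.Abs
import Pool.Agent.HY24.Cod
import Pool.Agent.HY24.Ch
import Pool.Agent.HY24.Tra

/-! # HY24/Lat (MP_82a190_co, helper24): assembly of the lattice side

Proof of `bad_V`. `c v = (v.1 : F)`, `e0 = {(l, j) : j < k}`, `xs = {(l1, 0)} ∪ {(l0, j) : 1 ≤ j < M}`, `M = (k+1)! QQ k`, both as
images of ranges under `j ↦ (unit, (j : ZMod N))`, injective for `j < N`. `∑_{e0} c = k l = 0` (`k` even). The family is
`Fa k (XX e0 xs)`.
-/

namespace Pool.Agent.HY24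

open Finset

theorem bad_V (k : ℕ) (hk : 4 ≤ k) (hke : Even k) {F : Type} [Field F] [Fintype F] [DecidableEq F]
    (lam : F →+ ZMod 2) (l l0 l1 : F) (hF : Fintype.card F = 2 ^ k) (h2 : ∀ x : F, x + x = 0)
    (hl : l ≠ 0) (hl0 : l0 ≠ 0) (hl1 : l1 ≠ 0) (h01 : l0 ≠ l) (h11 : l1 ≠ l) (h10 : l1 ≠ l0)
    (e0' : lam l0 = 0) (e1 : lam l1 = 1) (N : ℕ) [NeZero N] (hN : Odd N)
    (hbig : (k + 1).factorial * QQ k + k ≤ N) (δ : ℝ)
    (hδ : δ * (((2 : ℝ) ^ k - 1) * N) ≤
      ((2 : ℝ) ^ k - 1) * N - (2 * k * N + 2 * k + 2 * ((k + 1).factorial * QQ k * k))) :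
    Bad (Fˣ × ZMod N) k δ := by
  classical
  set M : ℕ := (k + 1).factorial * QQ k with hM
  have hMpos : 0 < M := Nat.mul_pos (Nat.factorial_pos _) (QQ_pos k)
  have hMN : M ≤ N := by omega
  have hkN : k ≤ N := by omega
  have hcast : ∀ i j : ℕ, i < N → j < N → ((i : ℕ) : ZMod N) = ((j : ℕ) : ZMod N) → i = j := by
    intro i j hi hj h
    have := (ZMod.natCast_eq_natCast_iff' i j N).1 h
    rwa [Nat.mod_eq_of_lt hi, Nat.mod_eq_of_lt hj] at this
  -- the units
  let ul : Fˣ := Units.mk0 l hl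
  let u0 : Fˣ := Units.mk0 l0 hl0
  let u1 : Fˣ := Units.mk0 l1 hl1
  let c : Fˣ × ZMod N → F := fun v => (v.1 : F)
  let E : Finset (Fˣ × ZMod N) := (range k).image (fun j : ℕ => (ul, (j : ZMod N)))
  let xs : Finset (Fˣ × ZMod N) := (range M).image (fun j : ℕ => ((if j = 0 then u1 else u0), (j : ZMod N)))
  have hEcard : E.card = k := by
    rw [card_image_of_injOn, card_range]
    intro i hi j hj h
    simp only [coe_range, Set.mem_Iio] at hi hj
    exact hcast i j (by omega) (by omega) (Prod.ext_iff.1 h).2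
  have hxcard : xs.card = M := by
    rw [card_image_of_injOn, card_range]
    intro i hi j hj h
    simp only [coe_range, Set.mem_Iio] at hi hj
    exact hcast i j (by omega) (by omega) (Prod.ext_iff.1 h).2
  have hcE : ∀ v ∈ E, c v = l := by
    intro v hv
    obtain ⟨j, -, rfl⟩ := mem_image.1 hv
    rfl
  have hcx : ∀ v ∈ xs, c v = l0 ∨ c v = l1 := by
    intro v hv
    obtain ⟨j, -, rfl⟩ := mem_image.1 hv
    by_cases hj : j = 0
    · right; simp [c, hj, u1]
    · left; simp [c, hj, u0]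
  have hne : ∀ x ∈ xs, ∀ a ∈ E, c x ≠ c a := by
    intro x hx a ha
    rw [hcE a ha]
    rcases hcx x hx with h | h <;> rw [h] <;> assumption
  have hd : Disjoint E xs := by
    rw [disjoint_left]
    intro v hv hv'
    exact hne v hv' v hv rfl
  have hz : ∑ v ∈ E, c v = 0 := by
    rw [sum_congr rfl hcE, sum_const, hEcard]
    obtain ⟨m, hm⟩ := hke
    rw [hm, add_nsmul, h2]
  have hodd : Odd (xs.filter (fun x => lam (c x) = 1)).card := by
    have : xs.filter (fun x => lam (c x) = 1) = {(u1, ((0 : ℕ) : ZMod N))} := by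
      ext v
      simp only [mem_filter, mem_singleton]
      constructor
      · rintro ⟨hv, h⟩
        obtain ⟨j, -, rfl⟩ := mem_image.1 hv
        by_cases hj : j = 0
        · subst hj; simp
        · exfalso
          have : c ((if j = 0 then u1 else u0), (j : ZMod N)) = l0 := by simp [c, hj, u0]
          rw [this, e0'] at h
          exact zero_ne_one h
      · rintro rfl
        refine ⟨mem_image.2 ⟨0, mem_range.2 hMpos, by simp⟩, ?_⟩
        exact e1
    rw [this, card_singleton]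
    exact odd_one
  have hfac : (k + 1).factorial ∣ xs.card := by rw [hxcard]; exact Dvd.intro _ rfl
  have hQ : QQ k ∣ xs.card := by rw [hxcard]; exact Dvd.intro_left _ rfl
  have hXc : ∀ f ∈ XX E xs, f.card = k := fun f hf => card_of_mem_XX k E xs hEcard (by omega) hd f hf
  set A := Fa k (XX E xs) with hAdef
  have hAc : ∀ B ∈ A, B.card = k + 1 := by
    intro B hB
    have := (mem_filter.1 hB).1
    exact ((mem_filter.1 this).2).1
  have hu : ∀ e : Finset (Fˣ × ZMod N), e.card = k → ∀ B ∈ A, ∀ B' ∈ A, e ⊆ B → e ⊆ B' → B = B' := by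
    intro e he B hB B' hB' h h'
    exact St_unique k e he B (mem_filter.1 hB).1 B' (mem_filter.1 hB').1 h h'
  have hcl : ∀ B ∈ A, ∀ a ∈ B, ∑ v ∈ B.erase a, c v ≠ 0 := by
    intro B hB
    exact ((mem_filter.1 hB).2).1
  have hdis : ∀ B ∈ A, ∀ f ∈ XX E xs, ¬ f ⊆ B := by
    intro B hB
    exact ((mem_filter.1 hB).2).2
  refine ⟨G0 k A ∪ XX E xs, ?_, ?_, ?_, ?_⟩
  · intro e he
    rcases mem_union.1 he with h | h
    · exact ((mem_filter.1 h).2).1
    · exact hXc e h
  · intro S hS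
    have h1 := codeg h2 hN k (by omega) (XX E xs) hXc S hS
    have h3 : (XX E xs).card ≤ M * k := by
      have := card_XX_le E xs
      rwa [hxcard, hEcard] at this
    have h4 : ((G0 k A).filter (fun e => S ⊆ e)).card ≤ ((G0 k A ∪ XX E xs).filter (fun e => S ⊆ e)).card :=
      card_le_card (filter_subset_filter _ subset_union_left)
    have hV : (Fintype.card (Fˣ × ZMod N) : ℝ) = ((2 : ℝ) ^ k - 1) * N := by
      rw [Fintype.card_prod, ZMod.card, Fintype.card_units, hF, Nat.cast_mul, Nat.cast_sub Nat.one_le_two_pow]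
      push_cast
      ring
    have h1' : (Fintype.card (Fˣ × ZMod N) : ℝ) ≤
        (((G0 k A ∪ XX E xs).filter (fun e => S ⊆ e)).card : ℝ) + (2 * k * N + 2 * k + 2 * (M * k)) := by
      have : Fintype.card (Fˣ × ZMod N) ≤
        ((G0 k A ∪ XX E xs).filter (fun e => S ⊆ e)).card + (2 * k * N + 2 * k + 2 * (M * k)) := by
        rw [← hAdef] at h1
        have h5 := Nat.mul_le_mul_left 2 h3
        linarith
      exact_mod_cast this
    rw [hV] at h1' ⊢
    have hMr : ((M : ℕ) : ℝ) = ((k + 1).factorial : ℝ) * (QQ k : ℝ) := by rw [hM]; push_cast; ring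
    rw [hMr] at h1'
    linarith
  · intro S hS
    exact div_G1 k A hAc hu E xs hEcard hd hfac hdis S hS
  · exact no_decomp h2 c lam k (by omega) hF A hAc hu hcl E xs hEcard hz hd hne hodd hQ hdis

theorem lattice (k : ℕ) (hk : 4 ≤ k) (hke : Even k) (δ : ℝ) (hδ : δ < 1 - 2 * k / (2 ^ k - 1)) :
    ∀ n₀ : ℕ, ∃ n : ℕ, n₀ ≤ n ∧ ∃ G : Finset (Finset (Fin n)),
        (∀ e ∈ G, e.card = k) ∧
        (∀ S : Finset (Fin n), S.card = k - 1 →
          δ * (n : ℝ) ≤ ((G.filter (fun e => S ⊆ e)).card : ℝ)) ∧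
        (∀ S : Finset (Fin n), S.card < k →
          (k + 1 - S.card).choose (k - S.card) ∣ (G.filter (fun e => S ⊆ e)).card) ∧
        ¬ ∃ D : Finset (Finset (Fin n)),
          (∀ A ∈ D, A.card = k + 1 ∧ ∀ e : Finset (Fin n), e ⊆ A → e.card = k → e ∈ G) ∧
          ∀ e ∈ G, (D.filter (fun A => e ⊆ A)).card = 1 := by
  intro n₀
  obtain ⟨F, i1, i2, i3, lam, l, l0, l1, hF, h2, hl, hl0, hl1, h01, h11, h10, e0, e1⟩ := choice k hk
  have h2k : (4 : ℝ) ≤ 2 ^ k := by
    calc (4 : ℝ) = 2 ^ 2 := by norm_num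
      _ ≤ 2 ^ k := pow_le_pow_right₀ (by norm_num) (by omega)
  have hpos : (0 : ℝ) < 2 ^ k - 1 := by linarith
  set η : ℝ := (1 - δ) * (2 ^ k - 1) - 2 * k with hη
  have hηpos : 0 < η := by
    have h1 : 2 * (k : ℝ) / (2 ^ k - 1) < 1 - δ := by linarith
    rw [div_lt_iff₀ hpos] at h1
    linarith
  set C : ℝ := 2 * k + 2 * ((k + 1).factorial * QQ k * k) with hC
  obtain ⟨m, hm⟩ := exists_nat_gt (C / η)
  set N : ℕ := 2 * (m + n₀ + ((k + 1).factorial * QQ k + k)) + 1 with hN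
  have : NeZero N := ⟨by omega⟩
  have hNodd : Odd N := ⟨_, rfl⟩
  have hbig : (k + 1).factorial * QQ k + k ≤ N := by omega
  have hmN : (m : ℝ) ≤ N := by
    have : m ≤ N := by omega
    exact_mod_cast this
  have hδ' : δ * (((2 : ℝ) ^ k - 1) * N) ≤
      ((2 : ℝ) ^ k - 1) * N - (2 * k * N + 2 * k + 2 * ((k + 1).factorial * QQ k * k)) := by
    have h3 : C < m * η := (div_lt_iff₀ hηpos).1 hm
    have h4 : (m : ℝ) * η ≤ N * η := mul_le_mul_of_nonneg_right hmN hηpos.le
    have h5 : C ≤ N * η := by linarith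
    have h6 : (N : ℝ) * η = ((2 : ℝ) ^ k - 1) * N - δ * (((2 : ℝ) ^ k - 1) * N) - 2 * k * N := by
      rw [hη]; ring
    rw [h6] at h5
    linarith
  have hbad := bad_V k hk hke lam l l0 l1 hF h2 hl hl0 hl1 h01 h11 h10 e0 e1 N hNodd hbig δ hδ'
  obtain ⟨G, hG1, hG2, hG3, hG4⟩ := transport _ k δ hbad
  refine ⟨Fintype.card (Fˣ × ZMod N), ?_, G, hG1, ?_, hG3, hG4⟩
  · rw [Fintype.card_prod, ZMod.card]
    have h1 : 1 ≤ Fintype.card Fˣ := Fintype.card_pos
    calc n₀ ≤ N := by omega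
      _ = 1 * N := (one_mul N).symm
      _ ≤ Fintype.card Fˣ * N := Nat.mul_le_mul_right _ h1
  · intro S hS
    have := hG2 S hS
    rwa [Fintype.card_fin] at this

end Pool.Agent.HY24
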