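import Pool.Agent.HY24.Face

/-! # HY24/Den (MP_82a190_co, helper24): a common denominator

`QQ k` is the product of all denominators of `gam n b`, `n ≤ k`, `b ≤ k`. Each term of `yy` for a `k`-set has
`n = k - |U| ≤ k` and `b ≤ |e| ≤ k`, so `QQ k * gam n b` is an integer.
-/

namespace Pool.Agent.HY24

open Finset

variable {V F : Type*} [DecidableEq V] [AddCommGroup F] [DecidableEq F]

/-- a common denominator -/
def QQ (k : ℕ) : ℕ := ∏ n ∈ range (k + 1), ∏ b ∈ range (k + 1), (gam n b).den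

theorem QQ_pos (k : ℕ) : 0 < QQ k := by
  unfold QQ
  exact Finset.prod_pos (fun n _ => Finset.prod_pos (fun b _ => (gam n b).den_pos))

theorem den_dvd_QQ (k n b : ℕ) (hn : n ≤ k) (hb : b ≤ k) : (gam n b).den ∣ QQ k := by
  unfold QQ
  exact (Finset.dvd_prod_of_mem (fun b => (gam n b).den) (Finset.mem_range.2 (Nat.lt_succ_of_le hb))).trans
    (Finset.dvd_prod_of_mem (fun n => ∏ b ∈ range (k + 1), (gam n b).den) (Finset.mem_range.2 (Nat.lt_succ_of_le hn)))

theorem QQ_mul_gam (k n b : ℕ) (hn : n ≤ k) (hb : b ≤ k) : ∃ m : ℤ, (QQ k : ℚ) * gam n b = m := by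
  obtain ⟨q, hq⟩ := den_dvd_QQ k n b hn hb
  refine ⟨(q : ℤ) * (gam n b).num, ?_⟩
  have h1 : ((gam n b).den : ℚ) * gam n b = (gam n b).num := by
    rw [mul_comm]; exact Rat.mul_den_eq_num _
  rw [hq]
  push_cast
  rw [← h1]
  ring

theorem QQ_mul_yy (c : V → F) (lam : F →+ ZMod 2) (k : ℕ) (e : Finset V) (he : e.card = k) :
    ∃ m : ℤ, (QQ k : ℚ) * yy c lam k e = m := by
  have h : ∀ U ∈ e.powerset.filter (fun U => ∑ v ∈ U, c v = 0 ∧ U.card < k),
      ∃ m : ℤ, (QQ k : ℚ) * gam (k - U.card) ((e \ U).filter (fun v => lam (c v) = 1)).card = m := by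
    intro U _
    refine QQ_mul_gam k _ _ (Nat.sub_le _ _) ?_
    calc ((e \ U).filter (fun v => lam (c v) = 1)).card ≤ (e \ U).card := Finset.card_filter_le _ _
      _ ≤ e.card := Finset.card_le_card Finset.sdiff_subset
      _ = k := he
  choose! g hg using h
  refine ⟨∑ U ∈ e.powerset.filter (fun U => ∑ v ∈ U, c v = 0 ∧ U.card < k), g U, ?_⟩
  unfold yy
  rw [Finset.mul_sum]
  push_cast
  exact Finset.sum_congr rfl hg

end Pool.Agent.HY24
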