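import Mathlib

/-! # HY24/Fam (MP_82a190_co, helper24): edge-disjoint cliques plus a switch; divisibility (Mathlib only)

`G0 k 𝒜` = the `k`-sets contained in a member of `𝒜`; `XX e0 xs` = the sets `insert x (e0.erase a)`, `x ∈ xs`, `a ∈ e0`;
`G1 = G0 ∪ XX`.

Proof of `div_G0`. `#{e ∈ G0 : S ⊆ e} = ∑_{A ∈ 𝒜} #{e ⊆ A : |e| = k, S ⊆ e}` (each `e ∈ G0` lies in exactly one `A`,
`Finset.card_eq_sum_card_fiberwise` or `card_biUnion`), and for `A` with `S ⊆ A` the number is `#{a ∈ A \ S} = k+1-|S|`
(`e = A.erase a`), for `S ⊄ A` it is `0`. `(k+1-s).choose (k-s) = k+1-s` (`Nat.choose_symm_diff`/`Nat.choose_succ_self_right`).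

Proof of `div_XX`. `(x,a) ↦ insert x (e0.erase a)` is injective on `xs ×ˢ e0` (`x` is the only element outside `e0`, `a` is the
only element of `e0` that is missing). Count the pairs `(x,a)` with `S ⊆ insert x (e0.erase a)`.
`S ⊆ e0`: they are the pairs with `a ∉ S`: `|xs| (k - |S|)`, divisible by `k+1-|S|` because `(k+1)! ∣ |xs|`
(`Nat.dvd_factorial`, `1 ≤ k+1-|S| ≤ k+1`). `S ⊄ e0`: let `x0 ∈ S \ e0`; then `x = x0` for all counted pairs. If `x0 ∉ xs` the
number is `0`; otherwise it is the number of `a ∈ e0` with `S.erase x0 ⊆ e0.erase a`, which is `0` if `S.erase x0 ⊄ e0`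
and `k - (|S| - 1) = k+1-|S|` otherwise.
-/

namespace Pool.Agent.HY24

open Finset

variable {V : Type*} [DecidableEq V] [Fintype V]

/-- the `k`-sets covered by the family -/
def G0 (k : ℕ) (A : Finset (Finset V)) : Finset (Finset V) :=
  univ.filter (fun e => e.card = k ∧ ∃ B ∈ A, e ⊆ B)

/-- the added sets -/
def XX (e0 xs : Finset V) : Finset (Finset V) := (xs ×ˢ e0).image (fun p => insert p.1 (e0.erase p.2))

theorem choose_aux (k s : ℕ) (hs : s < k) : (k + 1 - s).choose (k - s) = k + 1 - s := by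
  have h : k + 1 - s = (k - s) + 1 := by omega
  rw [h, Nat.choose_succ_self_right]

theorem G0_eq (k : ℕ) (A : Finset (Finset V)) (hA : ∀ B ∈ A, B.card = k + 1) :
    G0 k A = A.biUnion (fun B => B.image (fun a => B.erase a)) := by
  ext e
  simp only [G0, mem_filter, mem_univ, true_and, mem_biUnion, mem_image]
  constructor
  · rintro ⟨he, B, hB, heB⟩
    have hcard : (B \ e).card = 1 := by
      rw [card_sdiff_of_subset heB, hA B hB, he]; omega
    obtain ⟨a, ha⟩ := card_eq_one.mp hcard
    have haB : a ∈ B \ e := by rw [ha]; exact mem_singleton_self a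
    refine ⟨B, hB, a, (mem_sdiff.mp haB).1, ?_⟩
    ext x
    rw [mem_erase]
    constructor
    · rintro ⟨hxa, hxB⟩
      by_contra hxe
      have : x ∈ B \ e := mem_sdiff.mpr ⟨hxB, hxe⟩
      rw [ha, mem_singleton] at this
      exact hxa this
    · intro hxe
      refine ⟨?_, heB hxe⟩
      rintro rfl
      exact (mem_sdiff.mp haB).2 hxe
  · rintro ⟨B, hB, a, haB, rfl⟩
    refine ⟨?_, B, hB, erase_subset _ _⟩
    rw [card_erase_of_mem haB, hA B hB]; omega

theorem sum_G0_gen {M : Type*} [AddCommMonoid M] (k : ℕ) (A : Finset (Finset V)) (hA : ∀ B ∈ A, B.card = k + 1)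
    (hu : ∀ e : Finset V, e.card = k → ∀ B ∈ A, ∀ B' ∈ A, e ⊆ B → e ⊆ B' → B = B')
    (y : Finset V → M) :
    ∑ e ∈ G0 k A, y e = ∑ B ∈ A, ∑ a ∈ B, y (B.erase a) := by
  rw [G0_eq k A hA, sum_biUnion]
  · refine sum_congr rfl fun B _ => ?_
    rw [sum_image]
    exact erase_injOn B
  · intro B hB B' hB' hne
    rw [Function.onFun, disjoint_left]
    intro e he he'
    obtain ⟨a, ha, rfl⟩ := mem_image.mp he
    obtain ⟨a', ha', hee⟩ := mem_image.mp he'
    apply hne
    refine hu (B.erase a) ?_ B hB B' hB' (erase_subset _ _) ?_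
    · rw [card_erase_of_mem ha, hA B hB]; omega
    · rw [← hee]; exact erase_subset _ _

theorem sum_XX_gen {M : Type*} [AddCommMonoid M] (e0 xs : Finset V) (hd : Disjoint e0 xs) (y : Finset V → M) :
    ∑ f ∈ XX e0 xs, y f = ∑ x ∈ xs, ∑ a ∈ e0, y (insert x (e0.erase a)) := by
  rw [XX, sum_image, sum_product]
  rintro ⟨x, a⟩ hp ⟨x', a'⟩ hp' h
  simp only [coe_product, Set.mem_prod, mem_coe] at hp hp'
  simp only at h
  have hx : x ∉ e0 := fun hx => (disjoint_left.mp hd) hx hp.1
  have hx' : x' ∉ e0 := fun hx' => (disjoint_left.mp hd) hx' hp'.1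
  have h1 : x = x' := by
    have : x ∈ insert x' (e0.erase a') := by rw [← h]; exact mem_insert_self _ _
    rcases mem_insert.mp this with h2 | h2
    · exact h2
    · exact absurd (mem_of_mem_erase h2) hx
  subst h1
  have h2 : e0.erase a = e0.erase a' := by
    have e1 : (insert x (e0.erase a)).erase x = e0.erase a :=
      erase_insert (fun hh => hx (mem_of_mem_erase hh))
    have e2 : (insert x (e0.erase a')).erase x = e0.erase a' :=
      erase_insert (fun hh => hx (mem_of_mem_erase hh))
    rw [← e1, ← e2, h]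
  have h3 : a = a' := erase_injOn e0 hp.2 hp'.2 h2
  rw [h3]

theorem div_G0 (k : ℕ) (A : Finset (Finset V)) (hA : ∀ B ∈ A, B.card = k + 1)
    (hu : ∀ e : Finset V, e.card = k → ∀ B ∈ A, ∀ B' ∈ A, e ⊆ B → e ⊆ B' → B = B')
    (S : Finset V) (hS : S.card < k) :
    (k + 1 - S.card).choose (k - S.card) ∣ ((G0 k A).filter (fun e => S ⊆ e)).card := by
  rw [choose_aux k _ hS, card_filter, sum_G0_gen k A hA hu]
  refine dvd_sum fun B hB => ?_
  by_cases hSB : S ⊆ B
  · have : (∑ a ∈ B, if S ⊆ B.erase a then 1 else 0) = k + 1 - S.card := by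
      rw [← card_filter]
      have : (B.filter fun a => S ⊆ B.erase a) = B \ S := by
        ext a
        simp only [mem_filter, mem_sdiff]
        refine and_congr_right fun _ => ?_
        rw [subset_erase]
        exact ⟨fun h => h.2, fun h => ⟨hSB, h⟩⟩
      rw [this, card_sdiff_of_subset hSB, hA B hB]
    rw [this]
  · have : (∑ a ∈ B, if S ⊆ B.erase a then 1 else 0) = 0 := by
      refine sum_eq_zero fun a _ => ?_
      rw [if_neg]
      exact fun h => hSB (h.trans (erase_subset _ _))
    rw [this]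
    exact dvd_zero _

theorem div_XX (k : ℕ) (e0 xs : Finset V) (he : e0.card = k) (hd : Disjoint e0 xs) (hf : (k + 1).factorial ∣ xs.card)
    (S : Finset V) (hS : S.card < k) :
    (k + 1 - S.card).choose (k - S.card) ∣ ((XX e0 xs).filter (fun e => S ⊆ e)).card := by
  rw [choose_aux k _ hS, card_filter, sum_XX_gen e0 xs hd]
  by_cases hSe : S ⊆ e0
  · have hx : ∀ x ∈ xs, (∑ a ∈ e0, if S ⊆ insert x (e0.erase a) then 1 else 0) = k - S.card := by
      intro x hx
      rw [← card_filter]
      have : (e0.filter fun a => S ⊆ insert x (e0.erase a)) = e0 \ S := by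
        ext a
        simp only [mem_filter, mem_sdiff]
        refine and_congr_right fun _ => ?_
        have hxS : x ∉ S := fun h => (disjoint_left.mp hd) (hSe h) hx
        rw [subset_insert_iff_of_notMem hxS, subset_erase]
        exact ⟨fun h => h.2, fun h => ⟨hSe, h⟩⟩
      rw [this, card_sdiff_of_subset hSe, he]
    rw [sum_congr rfl hx, sum_const, smul_eq_mul]
    refine Dvd.dvd.mul_right (dvd_trans ?_ hf) _
    exact Nat.dvd_factorial (by omega) (by omega)
  · obtain ⟨x0, hx0S, hx0⟩ := not_subset.mp hSe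
    have hz : ∀ x ∈ xs, x ≠ x0 → (∑ a ∈ e0, if S ⊆ insert x (e0.erase a) then 1 else 0) = 0 := by
      intro x _ hne
      refine sum_eq_zero fun a _ => ?_
      rw [if_neg]
      intro h
      rcases mem_insert.mp (h hx0S) with h1 | h1
      · exact hne h1.symm
      · exact hx0 (mem_of_mem_erase h1)
    refine dvd_sum fun x hx => ?_
    by_cases hxx : x = x0
    · subst hxx
      by_cases hsub : S.erase x ⊆ e0
      · have : (∑ a ∈ e0, if S ⊆ insert x (e0.erase a) then 1 else 0) = k + 1 - S.card := by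
          rw [← card_filter]
          have : (e0.filter fun a => S ⊆ insert x (e0.erase a)) = e0 \ S.erase x := by
            ext a
            simp only [mem_filter, mem_sdiff]
            refine and_congr_right fun _ => ?_
            rw [subset_insert_iff, subset_erase]
            exact ⟨fun h => h.2, fun h => ⟨hsub, h⟩⟩
          rw [this, card_sdiff_of_subset hsub, card_erase_of_mem hx0S, he]
          have : 0 < S.card := card_pos.mpr ⟨x, hx0S⟩
          omega
        rw [this]
      · have : (∑ a ∈ e0, if S ⊆ insert x (e0.erase a) then 1 else 0) = 0 := by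
          refine sum_eq_zero fun a _ => ?_
          rw [if_neg]
          intro h
          rw [subset_insert_iff] at h
          exact hsub (h.trans (erase_subset _ _))
        rw [this]
        exact dvd_zero _
    · rw [hz x hx hxx]
      exact dvd_zero _

theorem card_XX_le (e0 xs : Finset V) : (XX e0 xs).card ≤ xs.card * e0.card := by
  rw [XX, ← card_product]
  exact card_image_le

theorem card_of_mem_XX (k : ℕ) (e0 xs : Finset V) (he : e0.card = k) (hk : 1 ≤ k) (hd : Disjoint e0 xs) (f : Finset V)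
    (hf : f ∈ XX e0 xs) : f.card = k := by
  rw [XX] at hf
  obtain ⟨⟨x, a⟩, hp, rfl⟩ := mem_image.mp hf
  obtain ⟨hx, ha⟩ := mem_product.mp hp
  simp only at hx ha ⊢
  have hxe : x ∉ e0.erase a := fun h => (disjoint_left.mp hd) (mem_of_mem_erase h) hx
  rw [card_insert_of_notMem hxe, card_erase_of_mem ha, he]
  omega

theorem sum_XX (e0 xs : Finset V) (hd : Disjoint e0 xs) (y : Finset V → ℚ) :
    ∑ f ∈ XX e0 xs, y f = ∑ x ∈ xs, ∑ a ∈ e0, y (insert x (e0.erase a)) :=
  sum_XX_gen e0 xs hd y

theorem sum_G0 (k : ℕ) (A : Finset (Finset V)) (hA : ∀ B ∈ A, B.card = k + 1)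
    (hu : ∀ e : Finset V, e.card = k → ∀ B ∈ A, ∀ B' ∈ A, e ⊆ B → e ⊆ B' → B = B')
    (y : Finset V → ℚ) :
    ∑ e ∈ G0 k A, y e = ∑ B ∈ A, ∑ a ∈ B, y (B.erase a) :=
  sum_G0_gen k A hA hu y

end Pool.Agent.HY24
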