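import Pool.Agent.HY24.Face2
import Pool.Agent.HY24.Den
import Pool.Agent.HY24.Fam

/-! # HY24/Abs (MP_82a190_co, helper24): the graph `G0 ∪ XX` is divisible and has no decomposition

Proof of `div_G1`: the filter of a disjoint union; `div_G0`, `div_XX`, `dvd_add`.

Proof of `no_decomp`. Suppose `D` is a decomposition of `G0 ∪ XX`. Then `∑_{f ∈ G0 ∪ XX} y f = ∑_{B ∈ D} ∑_{a ∈ B} y (B.erase a)`
for `y = yy c lam k` (double counting, the faces of `B` are the `k`-subsets of `B`, all in `G0 ∪ XX`, each `e` in exactly one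
`B ∈ D`), an integer by `face_sum_clique` (all elements of `G0 ∪ XX` have nonzero sum: `hG0` for `G0`; for
`insert x (e0.erase a)` the sum is `c x - c a ≠ 0`). On the other hand `∑_{G0} y = ∑_{B ∈ A} (face sum)` is an integer
(`sum_G0`, `face_sum_clique`), and `∑_{XX} y = ∑_{x ∈ xs} (m_x - y e0 + (1/2 if lam (c x) = 1))` (`sum_XX`, `face_sum_insert`)
`= integer - |xs| y(e0) + #{x : lam (c x) = 1}/2`, and `|xs| y(e0)` is an integer as `QQ k ∣ |xs|` (`QQ_mul_yy`). So an odd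
multiple of `1/2` is an integer: contradiction.
-/

namespace Pool.Agent.HY24

open Finset

variable {V F : Type*} [DecidableEq V] [Fintype V] [AddCommGroup F] [DecidableEq F] [Fintype F]

omit [Fintype V] in
theorem abs_eq_erase {k : ℕ} {f B : Finset V} (hf : f.card = k) (hB : B.card = k + 1) (h : f ⊆ B) :
    ∃ a ∈ B, f = B.erase a := by
  have h1 : (B \ f).card = 1 := by
    rw [Finset.card_sdiff_of_subset h, hB, hf]; omega
  obtain ⟨a, ha⟩ := Finset.card_eq_one.1 h1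
  have haB : a ∈ B \ f := by rw [ha]; exact Finset.mem_singleton_self a
  refine ⟨a, (Finset.mem_sdiff.1 haB).1, ?_⟩
  apply Finset.eq_of_subset_of_card_le
  · intro x hx
    rw [Finset.mem_erase]
    refine ⟨?_, h hx⟩
    rintro rfl
    exact (Finset.mem_sdiff.1 haB).2 hx
  · rw [Finset.card_erase_of_mem (Finset.mem_sdiff.1 haB).1, hB, hf]; omega

theorem abs_sum_int {ι : Type*} (s : Finset ι) (f : ι → ℚ) (h : ∀ i ∈ s, ∃ m : ℤ, f i = m) :
    ∃ m : ℤ, ∑ i ∈ s, f i = m := by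
  choose! g hg using h
  refine ⟨∑ i ∈ s, g i, ?_⟩
  push_cast
  exact Finset.sum_congr rfl hg

omit [Fintype V] in
theorem abs_disj (k : ℕ) (A : Finset (Finset V)) [Fintype V] (e0 xs : Finset V)
    (hdis : ∀ B ∈ A, ∀ f ∈ XX e0 xs, ¬ f ⊆ B) : Disjoint (G0 k A) (XX e0 xs) := by
  rw [Finset.disjoint_left]
  intro f hf hf'
  obtain ⟨-, -, B, hB, hfB⟩ := Finset.mem_filter.1 hf
  exact hdis B hB f hf' hfB

omit [Fintype V] [Fintype F] in
theorem abs_sum_ne (c : V → F) (k : ℕ) [Fintype V] (A : Finset (Finset V)) (hA : ∀ B ∈ A, B.card = k + 1)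
    (hcl : ∀ B ∈ A, ∀ a ∈ B, ∑ v ∈ B.erase a, c v ≠ 0)
    (e0 xs : Finset V) (hz : ∑ v ∈ e0, c v = 0) (hd : Disjoint e0 xs)
    (hne : ∀ x ∈ xs, ∀ a ∈ e0, c x ≠ c a) (f : Finset V) (hf : f ∈ G0 k A ∪ XX e0 xs) :
    ∑ v ∈ f, c v ≠ 0 := by
  rcases Finset.mem_union.1 hf with hf | hf
  · obtain ⟨-, hfk, B, hB, hfB⟩ := Finset.mem_filter.1 hf
    obtain ⟨a, ha, rfl⟩ := abs_eq_erase hfk (hA B hB) hfB
    exact hcl B hB a ha
  · obtain ⟨⟨x, a⟩, hp, rfl⟩ := Finset.mem_image.1 hf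
    obtain ⟨hx, ha⟩ := Finset.mem_product.1 hp
    simp only at hx ha ⊢
    have hxe : x ∉ e0.erase a := by
      intro h
      exact (Finset.disjoint_left.1 hd (Finset.mem_of_mem_erase h)) hx
    rw [Finset.sum_insert hxe]
    have h1 : ∑ v ∈ e0.erase a, c v + c a = 0 := by
      rw [Finset.sum_erase_add _ _ ha, hz]
    intro h
    have h2 : ∑ v ∈ e0.erase a, c v = - c a := eq_neg_of_add_eq_zero_left h1
    rw [h2, ← sub_eq_add_neg, sub_eq_zero] at h
    exact hne x hx a ha h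

theorem div_G1 (k : ℕ) (A : Finset (Finset V)) (hA : ∀ B ∈ A, B.card = k + 1)
    (hu : ∀ e : Finset V, e.card = k → ∀ B ∈ A, ∀ B' ∈ A, e ⊆ B → e ⊆ B' → B = B')
    (e0 xs : Finset V) (he : e0.card = k) (hd : Disjoint e0 xs) (hf : (k + 1).factorial ∣ xs.card)
    (hdis : ∀ B ∈ A, ∀ f ∈ XX e0 xs, ¬ f ⊆ B)
    (S : Finset V) (hS : S.card < k) :
    (k + 1 - S.card).choose (k - S.card) ∣ ((G0 k A ∪ XX e0 xs).filter (fun e => S ⊆ e)).card := by
  have hdisj := abs_disj k A e0 xs hdis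
  rw [Finset.filter_union, Finset.card_union_of_disjoint (Finset.disjoint_filter_filter hdisj)]
  exact Nat.dvd_add (div_G0 k A hA hu S hS) (div_XX k e0 xs he hd hf S hS)

theorem no_decomp (h2 : ∀ x : F, x + x = 0) (c : V → F) (lam : F →+ ZMod 2) (k : ℕ) (hk : 1 ≤ k)
    (hF : Fintype.card F = 2 ^ k)
    (A : Finset (Finset V)) (hA : ∀ B ∈ A, B.card = k + 1)
    (hu : ∀ e : Finset V, e.card = k → ∀ B ∈ A, ∀ B' ∈ A, e ⊆ B → e ⊆ B' → B = B')
    (hcl : ∀ B ∈ A, ∀ a ∈ B, ∑ v ∈ B.erase a, c v ≠ 0)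
    (e0 xs : Finset V) (he : e0.card = k) (hz : ∑ v ∈ e0, c v = 0) (hd : Disjoint e0 xs)
    (hne : ∀ x ∈ xs, ∀ a ∈ e0, c x ≠ c a)
    (hodd : Odd (xs.filter (fun x => lam (c x) = 1)).card) (hQ : QQ k ∣ xs.card)
    (hdis : ∀ B ∈ A, ∀ f ∈ XX e0 xs, ¬ f ⊆ B) :
    ¬ ∃ D : Finset (Finset V),
      (∀ B ∈ D, B.card = k + 1 ∧ ∀ e : Finset V, e ⊆ B → e.card = k → e ∈ G0 k A ∪ XX e0 xs) ∧
      ∀ e ∈ G0 k A ∪ XX e0 xs, (D.filter (fun B => e ⊆ B)).card = 1 := by
  rintro ⟨D, hD1, hD2⟩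
  have hdisj := abs_disj k A e0 xs hdis
  have hcardG : ∀ f ∈ G0 k A ∪ XX e0 xs, f.card = k := by
    intro f hf
    rcases Finset.mem_union.1 hf with hf | hf
    · exact (Finset.mem_filter.1 hf).2.1
    · exact card_of_mem_XX k e0 xs he hk hd f hf
  -- double counting
  have h1 : ∑ f ∈ G0 k A ∪ XX e0 xs, yy c lam k f = ∑ B ∈ D, ∑ a ∈ B, yy c lam k (B.erase a) := by
    have h11 : ∀ f ∈ G0 k A ∪ XX e0 xs,
        yy c lam k f = ∑ B ∈ D, if f ⊆ B then yy c lam k f else 0 := by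
      intro f hf
      rw [← Finset.sum_filter, Finset.sum_const, hD2 f hf, one_smul]
    rw [Finset.sum_congr rfl h11, Finset.sum_comm]
    apply Finset.sum_congr rfl
    intro B hB
    rw [← Finset.sum_filter]
    have h12 : (G0 k A ∪ XX e0 xs).filter (fun f => f ⊆ B) = B.image (fun a => B.erase a) := by
      ext f
      rw [Finset.mem_filter, Finset.mem_image]
      constructor
      · rintro ⟨hf, hfB⟩
        obtain ⟨a, ha, h⟩ := abs_eq_erase (hcardG f hf) (hD1 B hB).1 hfB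
        exact ⟨a, ha, h.symm⟩
      · rintro ⟨a, ha, rfl⟩
        refine ⟨(hD1 B hB).2 _ (Finset.erase_subset _ _) ?_, Finset.erase_subset _ _⟩
        rw [Finset.card_erase_of_mem ha, (hD1 B hB).1]; omega
    rw [h12, Finset.sum_image]
    intro a ha b hb hab
    exact Finset.erase_injOn B ha hb hab
  -- the right-hand side is an integer
  have h2' : ∃ m : ℤ, ∑ B ∈ D, ∑ a ∈ B, yy c lam k (B.erase a) = m := by
    apply abs_sum_int
    intro B hB
    apply face_sum_clique h2 c lam k hF B (hD1 B hB).1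
    intro a ha
    apply abs_sum_ne c k A hA hcl e0 xs hz hd hne
    apply (hD1 B hB).2 _ (Finset.erase_subset _ _)
    rw [Finset.card_erase_of_mem ha, (hD1 B hB).1]; omega
  obtain ⟨m1, hm1⟩ := h2'
  have h3 : ∃ m : ℤ, ∑ f ∈ G0 k A, yy c lam k f = m := by
    rw [sum_G0 k A hA hu]
    apply abs_sum_int
    intro B hB
    exact face_sum_clique h2 c lam k hF B (hA B hB) (hcl B hB)
  obtain ⟨m2, hm2⟩ := h3
  have h4 : ∃ m : ℤ, ∑ f ∈ XX e0 xs, yy c lam k f =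
      m - (xs.card : ℚ) * yy c lam k e0 + ((xs.filter (fun x => lam (c x) = 1)).card : ℚ) / 2 := by
    rw [sum_XX e0 xs hd]
    have h41 : ∀ x ∈ xs, ∃ m : ℤ, ∑ a ∈ e0, yy c lam k (insert x (e0.erase a)) = m - yy c lam k e0 +
        (if lam (c x) = 1 then 1 / 2 else 0) := by
      intro x hx
      exact face_sum_insert h2 c lam k hF e0 he hz x (fun h => Finset.disjoint_left.1 hd h hx) (hne x hx)
    choose! g hg using h41
    refine ⟨∑ x ∈ xs, g x, ?_⟩
    rw [Finset.sum_congr rfl hg, Finset.sum_add_distrib, Finset.sum_sub_distrib, Finset.sum_const,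
      nsmul_eq_mul, ← Finset.sum_filter, Finset.sum_const, nsmul_eq_mul]
    push_cast
    ring
  obtain ⟨m3, hm3⟩ := h4
  obtain ⟨m4, hm4⟩ := QQ_mul_yy c lam k e0 he
  obtain ⟨t, ht⟩ := hQ
  obtain ⟨j, hj⟩ := hodd
  rw [Finset.sum_union hdisj, hm1, hm2, hm3, hj] at h1
  have h5 : (xs.card : ℚ) * yy c lam k e0 = ((t * m4 : ℤ) : ℚ) := by
    rw [ht]
    push_cast
    rw [← hm4]
    ring
  rw [h5] at h1
  have h6 : (2 * (m2 + (m3 - t * m4) + j) + 1 : ℤ) = 2 * m1 := by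
    have : ((2 * (m2 + (m3 - t * m4) + j) + 1 : ℤ) : ℚ) = ((2 * m1 : ℤ) : ℚ) := by
      push_cast
      push_cast at h1
      linarith
    exact_mod_cast this
  omega

end Pool.Agent.HY24
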