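import Pool.Agent.HY24.Gam

/-! # HY24/Face (MP_82a190_co, helper24): the weight function `yy` and its face sums

Proof of `face_sum`. Exchange the sums: `∑_{a ∈ A} ∑_{U ⊆ A - a, ...} = ∑_{U ⊆ A, zero-sum, |U| < k} ∑_{a ∈ A \ U}
gam (k-|U|) (#{v ∈ (A \ U) - a : lam (c v) = 1})` (`(A.erase a) \ U = (A \ U).erase a`). Fix `U`, put `W = A \ U`,
`n = k - |U| ≥ 1`, so `|W| = n + 1`, and `b = #{v ∈ W : lam (c v) = 1}`. Then the inner sum is
`(n+1-b) gam n b + b gam n (b-1) = rr n b` (`gam_rec`; `a` with `lam (c a) = 1` removes one, the others remove none), and `rr n b`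
is an integer plus `1/2` iff `b` is odd. The class of `b` mod 2 is `∑_{v ∈ W} lam (c v) = lam (∑_A c) - lam (∑_U c) = lam (∑_A c)`.
Every value of `ZMod 2` is `0` or `1`. Sum over `U`: the integer parts add up to an integer, and the halves give the stated term.
-/

namespace Pool.Agent.HY24

open Finset

variable {V F : Type*} [DecidableEq V] [AddCommGroup F] [DecidableEq F]

/-- the weight of a `k`-set -/
def yy (c : V → F) (lam : F →+ ZMod 2) (k : ℕ) (e : Finset V) : ℚ :=
  ∑ U ∈ e.powerset.filter (fun U => ∑ v ∈ U, c v = 0 ∧ U.card < k),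
    gam (k - U.card) ((e \ U).filter (fun v => lam (c v) = 1)).card

omit [DecidableEq F] in
theorem inner_sum (c : V → F) (lam : F →+ ZMod 2) (k : ℕ) (A : Finset V) (hA : A.card = k + 1) (U : Finset V)
    (hU : U ⊆ A) (hU0 : ∑ v ∈ U, c v = 0) (hUk : U.card < k) :
    ∃ m : ℤ, ∑ a ∈ A \ U, gam (k - U.card) (((A.erase a) \ U).filter (fun v => lam (c v) = 1)).card = m +
      (if lam (∑ v ∈ A, c v) = 1 then (1 : ℚ) / 2 else 0) := by
  obtain ⟨n, hn⟩ : ∃ n, k - U.card = n := ⟨_, rfl⟩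
  have hn1 : 1 ≤ n := by omega
  have hW : (A \ U).card = n + 1 := by
    rw [Finset.card_sdiff_of_subset hU, hA]; omega
  set W := A \ U with hWdef
  set b := (W.filter (fun v => lam (c v) = 1)).card with hb
  have hbn : b ≤ n + 1 := by rw [← hW]; exact Finset.card_filter_le _ _
  have hterm : ∀ a ∈ W, gam (k - U.card) (((A.erase a) \ U).filter (fun v => lam (c v) = 1)).card =
      if lam (c a) = 1 then gam n (b - 1) else gam n b := by
    intro a ha
    have h1 : ((A.erase a) \ U).filter (fun v => lam (c v) = 1) =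
        (W.filter (fun v => lam (c v) = 1)).erase a := by
      ext v
      simp only [mem_filter, mem_sdiff, mem_erase, hWdef]
      tauto
    rw [h1, hn]
    split_ifs with h
    · rw [Finset.card_erase_of_mem (mem_filter.2 ⟨ha, h⟩)]
    · have hnot : a ∉ W.filter (fun v => lam (c v) = 1) := fun hh => h (mem_filter.1 hh).2
      rw [Finset.erase_eq_of_notMem hnot]
  rw [Finset.sum_congr rfl hterm, Finset.sum_ite, Finset.sum_const, Finset.sum_const]
  have hcomp : ((W.filter (fun v => ¬ lam (c v) = 1)).card : ℚ) = (n : ℚ) + 1 - b := by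
    have h := Finset.card_filter_add_card_filter_not (s := W) (fun v => lam (c v) = 1)
    rw [hW] at h
    have h' : ((W.filter (fun v => lam (c v) = 1)).card : ℚ) + ((W.filter (fun v => ¬ lam (c v) = 1)).card : ℚ)
        = (n : ℚ) + 1 := by exact_mod_cast h
    rw [← hb] at h'
    linarith
  have hrec := gam_rec n b hn1 hbn
  have hpar : lam (∑ v ∈ A, c v) = (b : ZMod 2) := by
    have h1 : ∑ v ∈ A, c v = ∑ v ∈ W, c v := by
      rw [hWdef, ← Finset.sum_sdiff hU, hU0, add_zero]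
    rw [h1, map_sum]
    have h2 : ∀ v ∈ W, lam (c v) = if lam (c v) = 1 then (1 : ZMod 2) else 0 := by
      intro v _
      have h3 : ∀ z : ZMod 2, z = if z = 1 then (1 : ZMod 2) else 0 := by decide
      exact h3 _
    rw [Finset.sum_congr rfl h2, Finset.sum_boole]
  have hodd : lam (∑ v ∈ A, c v) = 1 ↔ Odd b := by
    rw [hpar]
    exact ZMod.natCast_eq_one_iff_odd
  refine ⟨if b = 0 then 2 ^ (n - 1) else 0, ?_⟩
  rw [← hb, nsmul_eq_mul, nsmul_eq_mul, hcomp]
  have hfin : (b : ℚ) * gam n (b - 1) + ((n : ℚ) + 1 - b) * gam n b = rr n b := by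
    rw [← hrec]; ring
  rw [hfin, rr]
  simp only [hodd]
  push_cast
  split_ifs <;> simp

theorem face_sum (c : V → F) (lam : F →+ ZMod 2) (k : ℕ) (A : Finset V) (hA : A.card = k + 1) :
    ∃ m : ℤ, ∑ a ∈ A, yy c lam k (A.erase a) = m +
      (if lam (∑ v ∈ A, c v) = 1 then
        ((A.powerset.filter (fun U => ∑ v ∈ U, c v = 0 ∧ U.card < k)).card : ℚ) / 2 else 0) := by
  have hex : ∀ U : Finset V, ∃ m : ℤ, U ∈ A.powerset.filter (fun U => ∑ v ∈ U, c v = 0 ∧ U.card < k) →
      ∑ a ∈ A \ U, gam (k - U.card) (((A.erase a) \ U).filter (fun v => lam (c v) = 1)).card = m +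
      (if lam (∑ v ∈ A, c v) = 1 then (1 : ℚ) / 2 else 0) := by
    intro U
    by_cases hU : U ∈ A.powerset.filter (fun U => ∑ v ∈ U, c v = 0 ∧ U.card < k)
    · have hU' := hU
      rw [mem_filter, mem_powerset] at hU'
      obtain ⟨m, hm⟩ := inner_sum c lam k A hA U hU'.1 hU'.2.1 hU'.2.2
      exact ⟨m, fun _ => hm⟩
    · exact ⟨0, fun h => absurd h hU⟩
  choose m hm using hex
  refine ⟨∑ U ∈ A.powerset.filter (fun U => ∑ v ∈ U, c v = 0 ∧ U.card < k), m U, ?_⟩
  have hswap : ∑ a ∈ A, yy c lam k (A.erase a) =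
      ∑ U ∈ A.powerset.filter (fun U => ∑ v ∈ U, c v = 0 ∧ U.card < k), ∑ a ∈ A \ U,
        gam (k - U.card) (((A.erase a) \ U).filter (fun v => lam (c v) = 1)).card := by
    simp only [yy]
    apply Finset.sum_comm'
    intro a U
    simp only [mem_filter, mem_powerset, mem_sdiff]
    constructor
    · rintro ⟨ha, hU, h0, hk⟩
      refine ⟨⟨ha, fun haU => ?_⟩, ⟨hU.trans (Finset.erase_subset _ _), h0, hk⟩⟩
      exact (Finset.mem_erase.1 (hU haU)).1 rfl
    · rintro ⟨⟨ha, haU⟩, hU, h0, hk⟩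
      refine ⟨ha, ⟨?_, h0, hk⟩⟩
      intro v hv
      exact Finset.mem_erase.2 ⟨fun h => haU (h ▸ hv), hU hv⟩
  rw [hswap, Finset.sum_congr rfl (fun U hU => hm U hU), Finset.sum_add_distrib, Finset.sum_const, nsmul_eq_mul]
  push_cast
  congr 1
  split_ifs <;> ring

end Pool.Agent.HY24
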