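import Mathlib

/-! # HY24/Par (MP_82a190_co, helper24): the number of zero-sum subsets is even (Mathlib only)

Proof. `2^|A| > |F|`: two different subsets `U₁ ≠ U₂` of `A` have the same sum (`Finset.exists_ne_map_eq_of_card_lt_of_maps_to`
with `A.powerset` and `univ`). Put `W = symmDiff U₁ U₂`, nonempty, `W ⊆ A`, `∑_W c = 0` because `x + x = 0`. The map
`U ↦ symmDiff U W` is an involution of the set of zero-sum subsets of `A` without fixed points
(`Finset.card_involution`-like: `Finset.even_card_of_involution`? or `Finset.sum_involution` in `ZMod 2`: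
`∑_{U} (1 : ZMod 2) = 0`, then `ZMod.natCast_eq_zero_iff_even`).
Useful: `∑_{symmDiff U W} c = ∑_U c + ∑_W c` if `x + x = 0` (split into `U \ W`, `W \ U`, `U ∩ W`).
-/

namespace Pool.Agent.HY24

open Finset

variable {V F : Type*} [DecidableEq V] [AddCommGroup F] [DecidableEq F]

theorem sum_symmDiff_of_two (h2 : ∀ x : F, x + x = 0) (c : V → F) (U W : Finset V) :
    ∑ v ∈ symmDiff U W, c v = ∑ v ∈ U, c v + ∑ v ∈ W, c v := by
  have e1 : ∑ v ∈ U, c v = ∑ v ∈ U \ W, c v + ∑ v ∈ U ∩ W, c v := by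
    rw [← Finset.sum_sdiff (Finset.inter_subset_left : U ∩ W ⊆ U), Finset.sdiff_inter_self_left]
  have e2 : ∑ v ∈ W, c v = ∑ v ∈ W \ U, c v + ∑ v ∈ U ∩ W, c v := by
    rw [← Finset.sum_sdiff (Finset.inter_subset_right : U ∩ W ⊆ W), Finset.sdiff_inter_self_right]
  have e3 : ∑ v ∈ symmDiff U W, c v = ∑ v ∈ U \ W, c v + ∑ v ∈ W \ U, c v := by
    rw [symmDiff_def, Finset.sup_eq_union, Finset.sum_union disjoint_sdiff_sdiff]
  have e4 := h2 (∑ v ∈ U ∩ W, c v)
  rw [e1, e2, e3]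
  calc ∑ v ∈ U \ W, c v + ∑ v ∈ W \ U, c v
      = ∑ v ∈ U \ W, c v + ∑ v ∈ W \ U, c v + 0 := by rw [add_zero]
    _ = ∑ v ∈ U \ W, c v + ∑ v ∈ W \ U, c v + (∑ v ∈ U ∩ W, c v + ∑ v ∈ U ∩ W, c v) := by rw [e4]
    _ = _ := by abel

theorem even_zero_sum [Fintype F] (h2 : ∀ x : F, x + x = 0) (c : V → F) (A : Finset V)
    (hA : Fintype.card F < 2 ^ A.card) :
    Even (A.powerset.filter (fun U => ∑ v ∈ U, c v = 0)).card := by
  obtain ⟨U₁, h₁, U₂, h₂, hne, heq⟩ :=
    Finset.exists_ne_map_eq_of_card_lt_of_maps_to (s := A.powerset) (t := (univ : Finset F))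
      (by rw [card_powerset, card_univ]; exact hA) (f := fun U => ∑ v ∈ U, c v)
      (fun _ _ => Finset.mem_coe.2 (mem_univ _))
  have heq' : ∑ v ∈ U₁, c v = ∑ v ∈ U₂, c v := heq
  have hW0 : ∑ v ∈ symmDiff U₁ U₂, c v = 0 := by
    rw [sum_symmDiff_of_two h2, heq', h2]
  have hWA : symmDiff U₁ U₂ ⊆ A := by
    intro v hv
    rcases Finset.mem_symmDiff.1 hv with h | h
    · exact (Finset.mem_powerset.1 h₁) h.1
    · exact (Finset.mem_powerset.1 h₂) h.1
  have hWne : symmDiff U₁ U₂ ≠ ∅ := by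
    intro h
    exact hne (symmDiff_eq_bot.1 h)
  have key : ∑ _U ∈ A.powerset.filter (fun U => ∑ v ∈ U, c v = 0), (1 : ZMod 2) = 0 := by
    refine Finset.sum_involution (fun U _ => symmDiff U (symmDiff U₁ U₂)) ?_ ?_ ?_ ?_
    · intro _ _
      exact CharTwo.add_self_eq_zero _
    · intro U _ _ hU
      apply hWne
      have : symmDiff U (symmDiff U₁ U₂) = U := hU
      exact symmDiff_eq_left.1 this
    · intro U hU
      obtain ⟨hU1, hU2⟩ := Finset.mem_filter.1 hU
      refine Finset.mem_filter.2 ⟨Finset.mem_powerset.2 ?_, ?_⟩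
      · intro v hv
        rcases Finset.mem_symmDiff.1 hv with h | h
        · exact (Finset.mem_powerset.1 hU1) h.1
        · exact hWA h.1
      · rw [sum_symmDiff_of_two h2, hU2, hW0, add_zero]
    · intro U _
      exact symmDiff_symmDiff_cancel_right _ _
  rw [Finset.sum_const, nsmul_eq_mul, mul_one] at key
  exact (ZMod.natCast_eq_zero_iff_even).1 key

end Pool.Agent.HY24
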