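import Pool.Agent.HY24.Face
import Pool.Agent.HY24.Par

/-! # HY24/Face2 (MP_82a190_co, helper24): face sums of cliques and of the sets `insert x e`

Proof of `face_sum'`. From `face_sum`. If `lam (∑_A c) = 1` then `∑_A c ≠ 0`. The zero-sum subsets of `A` are: those of size `< k`,
those of size `k` (they are the `A.erase a`, `a ∈ A`, `∑ (A.erase a) = 0`; `a ↦ A.erase a` is injective on `A`), and none of size
`k + 1`. The total number is even (`even_zero_sum`, `Fintype.card F = 2^k < 2^(k+1)`), say `2t`, so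
`#(size < k) / 2 = t - #{a}/2 = (t - #{a}) + #{a}/2`.

`face_sum_clique`: no `a`, so the term is `0/2` or `0`. `face_sum_insert`: `A = insert x e`; `∑_A c = c x`; the sum of
`A.erase x = e` is `0`, and for `a ∈ e` the sum of `A.erase a` is `c x - c a ≠ 0`; so the number is exactly `1`.
-/

namespace Pool.Agent.HY24

open Finset

variable {V F : Type*} [DecidableEq V] [AddCommGroup F] [DecidableEq F]

theorem card_zero_sum (c : V → F) (k : ℕ) (A : Finset V) (hA : A.card = k + 1)
    (h0 : ∑ v ∈ A, c v ≠ 0) :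
    (A.powerset.filter (fun U => ∑ v ∈ U, c v = 0)).card =
      (A.powerset.filter (fun U => ∑ v ∈ U, c v = 0 ∧ U.card < k)).card +
      (A.filter (fun a => ∑ v ∈ A.erase a, c v = 0)).card := by
  have himg : ((A.filter (fun a => ∑ v ∈ A.erase a, c v = 0)).image (fun a => A.erase a)).card =
      (A.filter (fun a => ∑ v ∈ A.erase a, c v = 0)).card := by
    apply Finset.card_image_of_injOn
    intro a ha b hb hab
    have ha' := (Finset.mem_filter.1 (Finset.mem_coe.1 ha)).1
    by_contra hne
    have h1 : a ∈ A.erase b := Finset.mem_erase.2 ⟨hne, ha'⟩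
    have h2 : a ∉ A.erase a := Finset.notMem_erase a A
    exact h2 ((show A.erase a = A.erase b from hab) ▸ h1)
  rw [← himg, ← Finset.card_union_of_disjoint]
  · congr 1
    ext U
    simp only [Finset.mem_union, Finset.mem_filter, Finset.mem_powerset, Finset.mem_image]
    constructor
    · rintro ⟨hU, hs⟩
      by_cases hk : U.card < k
      · exact Or.inl ⟨hU, hs, hk⟩
      · right
        have hle := Finset.card_le_card hU
        have hne : U.card ≠ k + 1 := by
          intro h
          have : U = A := Finset.eq_of_subset_of_card_le hU (by omega)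
          exact h0 (this ▸ hs)
        have hsd : (A \ U).card = 1 := by rw [Finset.card_sdiff_of_subset hU]; omega
        obtain ⟨a, ha⟩ := Finset.card_eq_one.1 hsd
        have haA : a ∈ A := (Finset.mem_sdiff.1 (by rw [ha]; exact Finset.mem_singleton_self a)).1
        have hEU : A.erase a = U := by
          rw [← Finset.sdiff_singleton_eq_erase, ← ha, Finset.sdiff_sdiff_eq_self hU]
        exact ⟨a, ⟨haA, by rw [hEU]; exact hs⟩, hEU⟩
    · rintro (⟨hU, hs, _⟩ | ⟨a, ⟨_, hs⟩, rfl⟩)
      · exact ⟨hU, hs⟩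
      · exact ⟨Finset.erase_subset _ _, hs⟩
  · rw [Finset.disjoint_left]
    intro U hU hU'
    have h1 := (Finset.mem_filter.1 hU).2.2
    obtain ⟨a, ha, rfl⟩ := Finset.mem_image.1 hU'
    have h2 := Finset.card_erase_of_mem (Finset.mem_filter.1 ha).1
    omega

theorem face_sum' [Fintype F] (h2 : ∀ x : F, x + x = 0) (c : V → F) (lam : F →+ ZMod 2) (k : ℕ)
    (hF : Fintype.card F = 2 ^ k) (A : Finset V) (hA : A.card = k + 1) :
    ∃ m : ℤ, ∑ a ∈ A, yy c lam k (A.erase a) = m +
      (if lam (∑ v ∈ A, c v) = 1 then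
        ((A.filter (fun a => ∑ v ∈ A.erase a, c v = 0)).card : ℚ) / 2 else 0) := by
  obtain ⟨m, hm⟩ := face_sum c lam k A hA
  by_cases h : lam (∑ v ∈ A, c v) = 1
  · rw [if_pos h] at hm
    have h0 : ∑ v ∈ A, c v ≠ 0 := by
      intro h0
      rw [h0, map_zero] at h
      exact absurd h (by decide)
    have hcard := card_zero_sum c k A hA h0
    obtain ⟨t, ht⟩ := even_zero_sum h2 c A (by rw [hF, hA]; exact Nat.pow_lt_pow_right (by norm_num) (by omega))
    rw [ht] at hcard
    refine ⟨m + t - ((A.filter (fun a => ∑ v ∈ A.erase a, c v = 0)).card : ℤ), ?_⟩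
    rw [if_pos h, hm]
    have hq : ((t : ℚ) + t) =
      ((A.powerset.filter (fun U => ∑ v ∈ U, c v = 0 ∧ U.card < k)).card : ℚ) +
      ((A.filter (fun a => ∑ v ∈ A.erase a, c v = 0)).card : ℚ) := by
      exact_mod_cast hcard
    push_cast
    linarith
  · rw [if_neg h] at hm
    exact ⟨m, by rw [if_neg h]; exact hm⟩

theorem face_sum_clique [Fintype F] (h2 : ∀ x : F, x + x = 0) (c : V → F) (lam : F →+ ZMod 2) (k : ℕ)
    (hF : Fintype.card F = 2 ^ k) (A : Finset V) (hA : A.card = k + 1)
    (hcl : ∀ a ∈ A, ∑ v ∈ A.erase a, c v ≠ 0) :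
    ∃ m : ℤ, ∑ a ∈ A, yy c lam k (A.erase a) = m := by
  obtain ⟨m, hm⟩ := face_sum' h2 c lam k hF A hA
  have he : A.filter (fun a => ∑ v ∈ A.erase a, c v = 0) = ∅ :=
    Finset.filter_eq_empty_iff.2 (fun a ha => hcl a ha)
  refine ⟨m, ?_⟩
  rw [hm, he]
  simp

theorem face_sum_insert [Fintype F] (h2 : ∀ x : F, x + x = 0) (c : V → F) (lam : F →+ ZMod 2) (k : ℕ)
    (hF : Fintype.card F = 2 ^ k) (e : Finset V) (he : e.card = k) (hz : ∑ v ∈ e, c v = 0) (x : V) (hx : x ∉ e)
    (hne : ∀ a ∈ e, c x ≠ c a) :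
    ∃ m : ℤ, ∑ a ∈ e, yy c lam k (insert x (e.erase a)) = m - yy c lam k e +
      (if lam (c x) = 1 then 1 / 2 else 0) := by
  obtain ⟨m, hm⟩ := face_sum' h2 c lam k hF (insert x e) (by rw [Finset.card_insert_of_notMem hx, he])
  have hsum : ∑ v ∈ insert x e, c v = c x := by
    rw [Finset.sum_insert hx, hz, add_zero]
  have hfil : (insert x e).filter (fun a => ∑ v ∈ (insert x e).erase a, c v = 0) = {x} := by
    ext a
    rw [Finset.mem_filter, Finset.mem_insert, Finset.mem_singleton]
    constructor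
    · rintro ⟨rfl | ha, hs⟩
      · rfl
      · exfalso
        have h1 := Finset.add_sum_erase (insert x e) c (Finset.mem_insert_of_mem ha)
        rw [hs, hsum, add_zero] at h1
        exact hne a ha h1.symm
    · rintro rfl
      refine ⟨Or.inl rfl, ?_⟩
      rw [Finset.erase_insert hx, hz]
  rw [hsum, hfil, Finset.sum_insert hx, Finset.erase_insert hx] at hm
  have hcong : ∑ a ∈ e, yy c lam k ((insert x e).erase a) =
      ∑ a ∈ e, yy c lam k (insert x (e.erase a)) := by
    refine Finset.sum_congr rfl (fun a ha => ?_)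
    have hxa : x ≠ a := fun h => hx (by rw [h]; exact ha)
    rw [Finset.erase_insert_of_ne hxa]
  rw [hcong] at hm
  refine ⟨m, ?_⟩
  by_cases h : lam (c x) = 1
  · rw [if_pos h] at hm ⊢
    rw [Finset.card_singleton] at hm
    push_cast at hm
    linarith
  · rw [if_neg h] at hm ⊢
    linarith

end Pool.Agent.HY24
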