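import Mathlib

/-! # HY24/Gam (MP_82a190_co, helper24): the numbers gamma

`gam n b = (-1)^b dd n b / C(n,b)`, `dd n b = ∑_{j ≤ b} (-1)^j C(n+1,j) rr n j / (n+1)`.

Proof of `gam_rec`. (1) `dd n (n+1) = 0` for `1 ≤ n`: `∑_{j ≤ n+1} (-1)^j C(n+1,j) rr n j = 2^(n-1) - (1/2) #{odd subsets}`, and
the sum of `C(n+1,j)` over odd `j` is `2^n` (`∑ (-1)^j C(n+1,j) = 0` and `∑ C(n+1,j) = 2^(n+1)`:
`Int.alternating_sum_range_choose_of_ne`, `Nat.sum_range_choose`; write `rr n j = (1 - (-1)^j)/4 + 2^(n-1) [j = 0]`).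
(2) `b = 0`: `dd n 0 = rr n 0 / (n+1)`, `gam n 0 = rr n 0/(n+1)`. (3) `1 ≤ b ≤ n`: `dd n b = dd n (b-1) + (-1)^b C(n+1,b) rr n b/(n+1)`,
`C(n+1,b) (n+1-b) = (n+1) C(n,b)` and `C(n+1,b) b = (n+1) C(n,b-1)` (`Nat.succ_mul_choose_eq`, `Nat.choose_mul_succ_eq`), so
`(n+1-b)/C(n,b) = (n+1)/C(n+1,b) = b / C(n,b-1)` and the left side is
`(n+1)/C(n+1,b) * (-1)^b (dd n b - dd n (b-1)) = rr n b`. (4) `b = n+1`: the first term vanishes, `gam n n = (-1)^n dd n n` and
`0 = dd n (n+1) = dd n n + (-1)^(n+1) rr n (n+1)/(n+1)`.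
-/

namespace Pool.Agent.HY24

open Finset

/-- the right-hand sides: an integer plus `1/2` iff `b` is odd -/
def rr (n b : ℕ) : ℚ := (if b = 0 then 2 ^ (n - 1) else 0) + (if Odd b then 1 / 2 else 0)

/-- partial sums -/
def dd (n b : ℕ) : ℚ := ∑ j ∈ range (b + 1), (-1) ^ j * ((n + 1).choose j : ℚ) * rr n j / (n + 1)

/-- the numbers gamma -/
def gam (n b : ℕ) : ℚ := (-1) ^ b * dd n b / (n.choose b : ℚ)

theorem rr_eq (n j : ℕ) : rr n j = (1 - (-1) ^ j) / 4 + (if j = 0 then 2 ^ (n - 1) else 0) := by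
  unfold rr
  rcases Nat.even_or_odd j with h | h
  · rw [if_neg (Nat.not_odd_iff_even.2 h), h.neg_one_pow]; ring
  · rw [if_pos h, h.neg_one_pow]; ring

theorem dd_succ (n b : ℕ) :
    dd n (b + 1) = dd n b + (-1) ^ (b + 1) * ((n + 1).choose (b + 1) : ℚ) * rr n (b + 1) / (n + 1) := by
  unfold dd
  rw [Finset.sum_range_succ]

theorem dd_zero (n : ℕ) : dd n 0 = rr n 0 / (n + 1) := by
  simp [dd]

theorem alt_sum (n : ℕ) : ∑ j ∈ range (n + 2), (-1 : ℚ) ^ j * ((n + 1).choose j : ℚ) = 0 := by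
  have h := Int.alternating_sum_range_choose_of_ne (n := n + 1) (by omega)
  have h' := congrArg (fun z : ℤ => (z : ℚ)) h
  push_cast at h'
  exact h'

theorem pos_sum (n : ℕ) : ∑ j ∈ range (n + 2), ((n + 1).choose j : ℚ) = 2 ^ (n + 1) := by
  have h := Nat.sum_range_choose (n + 1)
  have h' := congrArg (fun z : ℕ => (z : ℚ)) h
  push_cast at h'
  exact h'

theorem dd_top (n : ℕ) (hn : 1 ≤ n) : dd n (n + 1) = 0 := by
  unfold dd
  rw [← Finset.sum_div]
  have hz : ∑ j ∈ range (n + 1 + 1), (-1 : ℚ) ^ j * ((n + 1).choose j : ℚ) * rr n j = 0 := by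
    have hterm : ∀ j ∈ range (n + 1 + 1), (-1 : ℚ) ^ j * ((n + 1).choose j : ℚ) * rr n j
        = (1 / 4) * ((-1 : ℚ) ^ j * ((n + 1).choose j : ℚ)) - (1 / 4) * ((n + 1).choose j : ℚ)
          + (if j = 0 then 2 ^ (n - 1) else 0) := by
      intro j _
      rw [rr_eq]
      have hs : (-1 : ℚ) ^ j * (-1) ^ j = 1 := by
        rw [← mul_pow]; norm_num
      by_cases hj : j = 0
      · subst hj
        norm_num
      · rw [if_neg hj, add_zero, add_zero]
        calc (-1 : ℚ) ^ j * ((n + 1).choose j : ℚ) * ((1 - (-1) ^ j) / 4)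
            = (1 / 4) * ((-1 : ℚ) ^ j * ((n + 1).choose j : ℚ))
              - (1 / 4) * ((-1 : ℚ) ^ j * (-1) ^ j) * ((n + 1).choose j : ℚ) := by ring
          _ = _ := by rw [hs]; ring
    rw [Finset.sum_congr rfl hterm, Finset.sum_add_distrib, Finset.sum_sub_distrib,
      ← Finset.mul_sum, ← Finset.mul_sum, alt_sum, pos_sum]
    rw [Finset.sum_ite_eq' (range (n + 1 + 1)) 0 (fun _ => (2 : ℚ) ^ (n - 1))]
    rw [if_pos (by simp)]
    obtain ⟨m, rfl⟩ : ∃ m, n = m + 1 := ⟨n - 1, by omega⟩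
    rw [Nat.add_sub_cancel]
    ring
  rw [hz, zero_div]

theorem gam_rec (n b : ℕ) (hn : 1 ≤ n) (hb : b ≤ n + 1) :
    ((n : ℚ) + 1 - b) * gam n b + b * gam n (b - 1) = rr n b := by
  have hn1 : (n : ℚ) + 1 ≠ 0 := by positivity
  rcases Nat.eq_zero_or_pos b with h0 | h0
  · subst h0
    unfold gam
    rw [dd_zero]
    simp only [Nat.cast_zero, sub_zero, pow_zero, one_mul, Nat.choose_zero_right, Nat.cast_one,
      div_one, zero_mul, add_zero]
    field_simp
  · obtain ⟨c, rfl⟩ : ∃ c, b = c + 1 := ⟨b - 1, by omega⟩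
    rw [Nat.add_sub_cancel]
    have hcn : c ≤ n := by omega
    have hc0 : (n.choose c : ℚ) ≠ 0 := by exact_mod_cast (Nat.choose_pos hcn).ne'
    have hsgn : (-1 : ℚ) ^ (c + 1) * (-1) ^ (c + 1) = 1 := by rw [← mul_pow]; norm_num
    have e1 : ((n : ℚ) + 1) * (n.choose c : ℚ) = ((n + 1).choose (c + 1) : ℚ) * (c + 1) := by
      have := Nat.add_one_mul_choose_eq n c
      have h' := congrArg (fun z : ℕ => (z : ℚ)) this
      push_cast at h'
      exact h'
    have hC0 : ((n + 1).choose (c + 1) : ℚ) ≠ 0 := by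
      exact_mod_cast (Nat.choose_pos (by omega)).ne'
    -- the second term
    have e2 : ((c + 1 : ℕ) : ℚ) * gam n c = (n + 1) / ((n + 1).choose (c + 1) : ℚ) * ((-1) ^ c * dd n c) := by
      unfold gam
      push_cast
      rw [div_mul_eq_mul_div, mul_div_assoc', div_eq_div_iff hc0 hC0]
      linear_combination (-((-1) ^ c * dd n c)) * e1
    rcases Nat.lt_or_ge n (c + 1) with h1 | h1
    · -- `c = n`
      have hcn' : c = n := by omega
      subst hcn'
      have ht := dd_top c hn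
      rw [dd_succ] at ht
      have hz : ((c : ℚ) + 1 - ((c + 1 : ℕ) : ℚ)) = 0 := by push_cast; ring
      rw [hz, zero_mul, zero_add, e2]
      have hch : ((c + 1).choose (c + 1) : ℚ) = 1 := by simp
      rw [hch] at ht ⊢
      have hd : dd c c = - ((-1) ^ (c + 1) * 1 * rr c (c + 1) / (c + 1)) := by linarith
      rw [hd]
      have hs2 : (-1 : ℚ) ^ c * (-1) ^ (c + 1) = -1 := by
        rw [← pow_add, show c + (c + 1) = 2 * c + 1 by ring]
        exact Odd.neg_one_pow ⟨c, rfl⟩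
      field_simp
      linear_combination (-(rr c (c + 1))) * hs2
    · have hcn0 : (n.choose (c + 1) : ℚ) ≠ 0 := by exact_mod_cast (Nat.choose_pos h1).ne'
      have e3 : ((n + 1).choose (c + 1) : ℚ) * ((n : ℚ) + 1 - (c + 1)) = (n + 1) * (n.choose (c + 1) : ℚ) := by
        have := Nat.choose_mul_succ_eq n (c + 1)
        have h' := congrArg (fun z : ℕ => (z : ℚ)) this
        have hle : c + 1 ≤ n + 1 := by omega
        rw [Nat.cast_mul, Nat.cast_mul, Nat.cast_sub hle] at h'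
        push_cast at h'
        linear_combination -h'
      have e4 : ((n : ℚ) + 1 - ((c + 1 : ℕ) : ℚ)) * gam n (c + 1)
          = (n + 1) / ((n + 1).choose (c + 1) : ℚ) * ((-1) ^ (c + 1) * dd n (c + 1)) := by
        unfold gam
        push_cast
        rw [div_mul_eq_mul_div, mul_div_assoc', div_eq_div_iff hcn0 hC0]
        linear_combination ((-1) ^ (c + 1) * dd n (c + 1)) * e3
      rw [e4, e2, dd_succ]
      have hs3 : (-1 : ℚ) ^ (c + 1) = - (-1) ^ c := by rw [pow_succ]; ring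
      have : (n + 1 : ℚ) / ((n + 1).choose (c + 1) : ℚ) * ((-1) ^ (c + 1) * (dd n c
          + (-1) ^ (c + 1) * ((n + 1).choose (c + 1) : ℚ) * rr n (c + 1) / (n + 1)))
          + (n + 1) / ((n + 1).choose (c + 1) : ℚ) * ((-1) ^ c * dd n c)
          = ((-1) ^ (c + 1) * (-1) ^ (c + 1)) * rr n (c + 1)
            + (n + 1) / ((n + 1).choose (c + 1) : ℚ) * dd n c * ((-1) ^ (c + 1) + (-1) ^ c) := by
        field_simp
        ring
      rw [this, hsgn, hs3]
      ring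

end Pool.Agent.HY24
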